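import Mathlib

/-!
Countably many sets of positive integers, each with at most `C X ^ (ε / 2)` elements up to `X`,
have a common thin upper bound when finitely many elements of each of them are removed.
-/

set_option autoImplicit false

namespace Pool.Agent.Seat74.TN

/-- **One thin set for countably many conditions.** -/
theorem thin_union (ε : ℝ) (hε : 0 < ε) (Bad : ℕ → Set ℕ)
    (h : ∀ j, ∃ C : ℝ, ∀ X : ℕ, 1 ≤ X →
      (({x ∈ Bad j | 1 ≤ x ∧ x ≤ X}.ncard : ℕ) : ℝ) ≤ C * (X : ℝ) ^ (ε / 2)) :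
    ∃ T : ℕ → ℕ, ∀ X : ℝ, 1 ≤ X →
      {x : ℕ | (∃ j, x ∈ Bad j ∧ T j ≤ x) ∧ (x : ℝ) ≤ X}.Finite ∧
      (({x : ℕ | (∃ j, x ∈ Bad j ∧ T j ≤ x) ∧ (x : ℝ) ≤ X}.ncard : ℕ) : ℝ) ≤ X ^ ε := by
  classical
  choose C hC using h
  have hT : ∀ j, ∃ t : ℕ, 1 ≤ t ∧
      ∀ x : ℕ, t ≤ x → (∑ i ∈ Finset.range (j + 1), max (C i) 0) ≤ (x : ℝ) ^ (ε / 2) := by
    intro j
    have h1 := ((tendsto_rpow_atTop (show (0 : ℝ) < ε / 2 by positivity)).comp
      (tendsto_natCast_atTop_atTop (R := ℝ))).eventually_ge_atTop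
        (∑ i ∈ Finset.range (j + 1), max (C i) 0)
    obtain ⟨t, h2⟩ := Filter.eventually_atTop.1 h1
    exact ⟨max t 1, le_max_right _ _, fun x hx => h2 x ((le_max_left _ _).trans hx)⟩
  choose t ht1 ht using hT
  -- the thresholds
  obtain ⟨T, hTd⟩ : ∃ T : ℕ → ℕ, T = fun j => j + ∑ i ∈ Finset.range (j + 1), t i := ⟨_, rfl⟩
  have hTt : ∀ j, t j ≤ T j := by
    intro j
    rw [hTd]
    have := Finset.single_le_sum (f := t) (fun _ _ => Nat.zero_le _) (Finset.self_mem_range_succ j)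
    exact this.trans (Nat.le_add_left _ _)
  have hTj : ∀ j, j ≤ T j := by
    intro j; rw [hTd]; exact Nat.le_add_right _ _
  have hTm : Monotone T := by
    intro i j hij
    rw [hTd]
    refine Nat.add_le_add hij (Finset.sum_le_sum_of_subset ?_)
    exact Finset.range_subset_range.2 (by omega)
  refine ⟨T, fun X hX => ?_⟩
  have hX0 : (0 : ℝ) ≤ X := by linarith
  obtain ⟨m, hm⟩ : ∃ m, m = ⌊X⌋₊ := ⟨_, rfl⟩
  have hm1 : 1 ≤ m := by rw [hm]; exact Nat.one_le_floor_iff X |>.2 hX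
  have hmX : (m : ℝ) ≤ X := by rw [hm]; exact Nat.floor_le hX0
  -- finitely many indices matter
  have hfin : {x : ℕ | (∃ j, x ∈ Bad j ∧ T j ≤ x) ∧ (x : ℝ) ≤ X}.Finite := by
    refine (Set.finite_Icc 0 m).subset ?_
    rintro x ⟨-, hx⟩
    exact ⟨Nat.zero_le _, by rw [hm]; exact Nat.le_floor hx⟩
  refine ⟨hfin, ?_⟩
  by_cases hJ : ∃ j, T j ≤ m
  · obtain ⟨J, hJd⟩ : ∃ J, J = Nat.findGreatest (fun j => T j ≤ m) m := ⟨_, rfl⟩
    have hJT : T J ≤ m := by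
      obtain ⟨j, hj⟩ := hJ
      rw [hJd]
      exact Nat.findGreatest_spec (P := fun j => T j ≤ m) ((hTj j).trans hj) hj
    have hJmax : ∀ j, T j ≤ m → j ≤ J := by
      intro j hj
      rw [hJd]
      exact Nat.le_findGreatest ((hTj j).trans hj) hj
    have hsub : {x : ℕ | (∃ j, x ∈ Bad j ∧ T j ≤ x) ∧ (x : ℝ) ≤ X} ⊆
        ⋃ j ∈ Finset.range (J + 1), {x ∈ Bad j | 1 ≤ x ∧ x ≤ m} := by
      rintro x ⟨⟨j, hj1, hj2⟩, hx⟩
      have hxm : x ≤ m := by rw [hm]; exact Nat.le_floor hx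
      have h1 : j ≤ J := hJmax j (hj2.trans hxm)
      simp only [Set.mem_iUnion]
      exact ⟨j, Finset.mem_range.2 (by omega), hj1, ((ht1 j).trans (hTt j)).trans hj2, hxm⟩
    have hfj : ∀ j, {x ∈ Bad j | 1 ≤ x ∧ x ≤ m}.Finite := fun j =>
      (Set.finite_Icc 1 m).subset (fun x hx => hx.2)
    have h1 : ({x : ℕ | (∃ j, x ∈ Bad j ∧ T j ≤ x) ∧ (x : ℝ) ≤ X}).ncard ≤
        ∑ j ∈ Finset.range (J + 1), ({x ∈ Bad j | 1 ≤ x ∧ x ≤ m}).ncard := by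
      refine (Set.ncard_le_ncard hsub ?_).trans ?_
      · exact Set.Finite.biUnion (Finset.finite_toSet _) (fun j _ => hfj j)
      · exact Finset.set_ncard_biUnion_le _ _
    have h2 : ((({x : ℕ | (∃ j, x ∈ Bad j ∧ T j ≤ x) ∧ (x : ℝ) ≤ X}).ncard : ℕ) : ℝ) ≤
        ∑ j ∈ Finset.range (J + 1), ((({x ∈ Bad j | 1 ≤ x ∧ x ≤ m}).ncard : ℕ) : ℝ) := by
      exact_mod_cast h1
    refine h2.trans ?_
    have h3 : ∑ j ∈ Finset.range (J + 1), ((({x ∈ Bad j | 1 ≤ x ∧ x ≤ m}).ncard : ℕ) : ℝ) ≤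
        ∑ j ∈ Finset.range (J + 1), max (C j) 0 * (m : ℝ) ^ (ε / 2) := by
      refine Finset.sum_le_sum fun j _ => (hC j m hm1).trans ?_
      exact mul_le_mul_of_nonneg_right (le_max_left _ _) (by positivity)
    refine h3.trans ?_
    rw [← Finset.sum_mul]
    have h4 : (∑ i ∈ Finset.range (J + 1), max (C i) 0) ≤ (m : ℝ) ^ (ε / 2) :=
      ht J m ((hTt J).trans hJT)
    calc (∑ i ∈ Finset.range (J + 1), max (C i) 0) * (m : ℝ) ^ (ε / 2)
        ≤ (m : ℝ) ^ (ε / 2) * (m : ℝ) ^ (ε / 2) :=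
          mul_le_mul_of_nonneg_right h4 (by positivity)
      _ = (m : ℝ) ^ ε := by
          rw [← Real.rpow_add (by exact_mod_cast hm1)]; ring_nf
      _ ≤ X ^ ε := Real.rpow_le_rpow (by positivity) hmX hε.le
  · have h0 : {x : ℕ | (∃ j, x ∈ Bad j ∧ T j ≤ x) ∧ (x : ℝ) ≤ X} = ∅ := by
      rw [Set.eq_empty_iff_forall_notMem]
      rintro x ⟨⟨j, hj1, hj2⟩, hx⟩
      exact hJ ⟨j, hj2.trans (by rw [hm]; exact Nat.le_floor hx)⟩
    rw [h0, Set.ncard_empty]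
    simpa using (show (0 : ℝ) ≤ X ^ ε by positivity)

end Pool.Agent.Seat74.TN
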