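import Mathlib
import Pool.Agent.H785R2.ABC.A12

/-!
The integers up to `X` composed of the primes dividing a given integer of polynomial size, and
the integers up to `X` which divide one of few integers with radicals of polynomial size.
-/

set_option autoImplicit false

namespace Pool.Agent.Seat74.TN

open Pool.Agent.H785R2.ABC (stmtA1 stmtA2)

/-- **Few integers composed of given primes.** -/
theorem few_rad (B : ℕ) (ε : ℝ) (hε : 0 < ε) : ∃ C : ℝ, 0 < C ∧ ∀ X : ℕ, 1 ≤ X → ∀ k : ℕ, 1 ≤ k →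
    k ≤ X ^ B →
    ((((Finset.Icc 1 X).filter fun m => m.primeFactors ⊆ k.primeFactors).card : ℕ) : ℝ) ≤
      C * (X : ℝ) ^ ε := by
  classical
  obtain ⟨D₁, hD₁, h1⟩ := stmtA1 2 (by norm_num) (ε / (2 * (B + 1))) (by positivity)
  obtain ⟨D₂, hD₂, h2⟩ := stmtA2 (ε / 2) (by positivity)
  refine ⟨D₁ * D₂, by positivity, fun X hX k hk hkX => ?_⟩
  have hX1 : (1 : ℝ) ≤ (X : ℝ) := by exact_mod_cast hX
  have hsub : (Finset.Icc 1 X).filter (fun m => m.primeFactors ⊆ k.primeFactors) ⊆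
      (k.primeFactors.powerset).biUnion fun S =>
        (Finset.Icc 1 X).filter fun d => Pool.Agent.H785R2.ABC.rad d = ∏ p ∈ S, p := by
    intro m hm
    rw [Finset.mem_filter] at hm
    rw [Finset.mem_biUnion]
    exact ⟨m.primeFactors, Finset.mem_powerset.2 hm.2, Finset.mem_filter.2 ⟨hm.1, rfl⟩⟩
  have h3 := (Finset.card_le_card hsub).trans Finset.card_biUnion_le
  have h4 : ((((Finset.Icc 1 X).filter fun m => m.primeFactors ⊆ k.primeFactors).card : ℕ) : ℝ) ≤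
      ∑ S ∈ k.primeFactors.powerset,
        ((((Finset.Icc 1 X).filter fun d => Pool.Agent.H785R2.ABC.rad d = ∏ p ∈ S, p).card : ℕ) : ℝ)
      := by exact_mod_cast h3
  have h5 : ∑ S ∈ k.primeFactors.powerset,
      ((((Finset.Icc 1 X).filter fun d => Pool.Agent.H785R2.ABC.rad d = ∏ p ∈ S, p).card : ℕ) : ℝ)
      ≤ ∑ S ∈ k.primeFactors.powerset, D₂ * (X : ℝ) ^ (ε / 2) :=
    Finset.sum_le_sum fun S _ => h2 X hX _
  refine (h4.trans h5).trans ?_
  rw [Finset.sum_const, Finset.card_powerset, nsmul_eq_mul]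
  push_cast
  have h6 : (2 : ℝ) ^ k.primeFactors.card ≤ D₁ * (X : ℝ) ^ (ε / 2) := by
    refine (h1 k hk).trans (mul_le_mul_of_nonneg_left ?_ hD₁.le)
    have h7 : (k : ℝ) ≤ (X : ℝ) ^ B := by exact_mod_cast hkX
    refine (Real.rpow_le_rpow (by positivity) h7 (by positivity)).trans ?_
    rw [← Real.rpow_natCast, ← Real.rpow_mul (by positivity)]
    refine Real.rpow_le_rpow_of_exponent_le hX1 ?_
    have h8 : (0 : ℝ) < 2 * ((B : ℝ) + 1) := by positivity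
    rw [mul_div_assoc', div_le_iff₀ h8]
    nlinarith
  calc (2 : ℝ) ^ k.primeFactors.card * (D₂ * (X : ℝ) ^ (ε / 2))
      ≤ (D₁ * (X : ℝ) ^ (ε / 2)) * (D₂ * (X : ℝ) ^ (ε / 2)) :=
        mul_le_mul_of_nonneg_right h6 (by positivity)
    _ = D₁ * D₂ * ((X : ℝ) ^ (ε / 2) * (X : ℝ) ^ (ε / 2)) := by ring
    _ = D₁ * D₂ * (X : ℝ) ^ ε := by
        rw [← Real.rpow_add (by linarith)]; ring_nf

/-- **Few integers attached to few labels.** Let `S` be a set of at most `(Y ^ A) ^ ε'` labels, to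
each of which an integer `k ≤ (Y ^ A) ^ B` is attached. At most `C Y ^ ε` integers `x ≤ Y` are
composed of the primes dividing the integer attached to one of the labels. -/
theorem few_attached (A B : ℕ) (ε : ℝ) (hε : 0 < ε) : ∃ C ε' : ℝ, 0 < C ∧ 0 < ε' ∧
    ∀ Y : ℕ, 1 ≤ Y → ∀ (α : Type) (S : Set α) (Q : Set ℕ), S.Finite →
      (((S.ncard : ℕ) : ℝ) ≤ ((Y ^ A : ℕ) : ℝ) ^ ε') →
      ∀ L : α → Set ℕ, (∀ s ∈ S, ∃ k : ℕ, 1 ≤ k ∧ k ≤ (Y ^ A) ^ B ∧
        ∀ x ∈ L s, x.primeFactors ⊆ k.primeFactors) →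
      (∀ x ∈ Q, 1 ≤ x ∧ x ≤ Y ∧ ∃ s ∈ S, x ∈ L s) →
      (((Q.ncard : ℕ) : ℝ) ≤ C * (Y : ℝ) ^ ε) := by
  classical
  obtain ⟨C, hC, hfr⟩ := few_rad (A * B) (ε / 2) (by positivity)
  refine ⟨C, ε / (2 * (A + 1)), hC, by positivity, fun Y hY α S Q hS hcard L hL hQ => ?_⟩
  have hY1 : (1 : ℝ) ≤ (Y : ℝ) := by exact_mod_cast hY
  choose! k hk1 hkY hkL using hL
  have hsub : Q ⊆ ⋃ s ∈ hS.toFinset,
      (((Finset.Icc 1 Y).filter fun m => m.primeFactors ⊆ (k s).primeFactors : Finset ℕ) : Set ℕ) := by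
    intro x hx
    obtain ⟨h1, h2, s, hs, hxs⟩ := hQ x hx
    simp only [Set.mem_iUnion]
    refine ⟨s, hS.mem_toFinset.2 hs, ?_⟩
    rw [Finset.mem_coe, Finset.mem_filter, Finset.mem_Icc]
    exact ⟨⟨h1, h2⟩, hkL s hs x hxs⟩
  have h1 : Q.ncard ≤ ∑ s ∈ hS.toFinset,
      ((Finset.Icc 1 Y).filter fun m => m.primeFactors ⊆ (k s).primeFactors).card := by
    refine (Set.ncard_le_ncard hsub ?_).trans ((Finset.set_ncard_biUnion_le _ _).trans ?_)
    · exact Set.Finite.biUnion (Finset.finite_toSet _) (fun _ _ => Finset.finite_toSet _)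
    · exact Finset.sum_le_sum fun s _ => by rw [Set.ncard_coe_finset]
  have h2 : ((Q.ncard : ℕ) : ℝ) ≤ ∑ s ∈ hS.toFinset,
      ((((Finset.Icc 1 Y).filter fun m => m.primeFactors ⊆ (k s).primeFactors).card : ℕ) : ℝ) := by
    exact_mod_cast h1
  have h3 : ∑ s ∈ hS.toFinset,
      ((((Finset.Icc 1 Y).filter fun m => m.primeFactors ⊆ (k s).primeFactors).card : ℕ) : ℝ) ≤
      ∑ s ∈ hS.toFinset, C * (Y : ℝ) ^ (ε / 2) := by
    refine Finset.sum_le_sum fun s hs => hfr Y hY (k s) ?_ ?_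
    · exact hk1 s (hS.mem_toFinset.1 hs)
    · rw [pow_mul]
      exact hkY s (hS.mem_toFinset.1 hs)
  refine (h2.trans h3).trans ?_
  rw [Finset.sum_const, nsmul_eq_mul, ← Set.ncard_eq_toFinset_card _ hS]
  have h4 : ((Y ^ A : ℕ) : ℝ) ^ (ε / (2 * ((A : ℝ) + 1))) ≤ (Y : ℝ) ^ (ε / 2) := by
    push_cast
    rw [← Real.rpow_natCast, ← Real.rpow_mul (by positivity)]
    refine Real.rpow_le_rpow_of_exponent_le hY1 ?_
    have h8 : (0 : ℝ) < 2 * ((A : ℝ) + 1) := by positivity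
    rw [mul_div_assoc', div_le_iff₀ h8]
    nlinarith
  calc ((S.ncard : ℕ) : ℝ) * (C * (Y : ℝ) ^ (ε / 2))
      ≤ (Y : ℝ) ^ (ε / 2) * (C * (Y : ℝ) ^ (ε / 2)) :=
        mul_le_mul_of_nonneg_right (hcard.trans h4) (by positivity)
    _ = C * ((Y : ℝ) ^ (ε / 2) * (Y : ℝ) ^ (ε / 2)) := by ring
    _ = C * (Y : ℝ) ^ ε := by
        rw [← Real.rpow_add (by linarith)]; ring_nf

end Pool.Agent.Seat74.TN
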