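import Mathlib
import Pool.Agent.Results.MP_a95293_nt.LargeParts
import Pool.Agent.Seat74.TN.Smooth

set_option autoImplicit false

namespace Pool.Agent.Seat74.TN.Bases

open Pool.Agent.Results.MP_a95293_nt.LargeParts (LargePartsOf)

/-- admissible `n`-tuples: coprime integers with sum zero and no vanishing proper partial sum -/
def Admissible {n : ℕ} (a : Fin n → ℤ) : Prop :=
  Finset.univ.gcd a = 1 ∧ ∑ i, a i = 0 ∧
    ∀ K : Finset (Fin n), K.Nonempty → K ≠ Finset.univ → ∑ i ∈ K, a i ≠ 0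

/-- the primes dividing the product of the members -/
def primesOf {n : ℕ} (a : Fin n → ℤ) : Finset ℕ := (∏ i, a i).natAbs.primeFactors

/-- the radical of the product of the members: the product of the primes dividing it -/
def rad {n : ℕ} (a : Fin n → ℤ) : ℕ := ∏ p ∈ primesOf a, p

lemma Admissible.ne_zero {n : ℕ} {a : Fin n → ℤ} (h : Admissible a) (i : Fin n) : a i ≠ 0 := by
  classical
  intro h0
  by_cases hi : ({i} : Finset (Fin n)) = Finset.univ
  · have h1 := h.1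
    rw [← hi, Finset.gcd_singleton, h0] at h1
    simp at h1
  · have h1 := h.2.2 {i} (Finset.singleton_nonempty i) hi
    rw [Finset.sum_singleton] at h1
    exact h1 h0

/-- the integers `x` which occur with an exponent larger than `R` as one of the bases, the others
being at most `x ^ A` -/
def Bad (n N A R : ℕ) (δ : ℝ) : Set ℕ :=
  {x | 2 ≤ x ∧ ∃ (a : Fin n → ℤ) (b : Fin N → ℕ) (e : Fin n → Fin N → ℕ) (i : Fin n) (j : Fin N),
    Admissible a ∧ (∀ i, ((|a i| : ℤ) : ℝ) ≤ Real.exp (((x ^ A : ℕ) : ℝ) ^ δ)) ∧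
    (∀ j, 1 ≤ b j ∧ b j ≤ x ^ A) ∧ (∀ j k, j ≠ k → Nat.Coprime (b j) (b k)) ∧
    (∀ i, (a i).natAbs = ∏ j, b j ^ e i j) ∧ b j = x ∧ R < e i j}

lemma count_bad (n N A : ℕ) (ε : ℝ) (hε : 0 < ε) : ∃ (R : ℕ) (δ : ℝ), 0 < δ ∧ ∃ C : ℝ,
    ∀ Y : ℕ, 1 ≤ Y →
      (({x ∈ Bad n N A R δ | 1 ≤ x ∧ x ≤ Y}.ncard : ℕ) : ℝ) ≤ C * (Y : ℝ) ^ ε := by
  classical
  obtain ⟨C, ε', hC, hε', hfa⟩ := few_attached A N ε hε
  obtain ⟨R, δ, hδ, h⟩ := Pool.Agent.Results.MP_a95293_nt.LargeParts.result n N ε' hε'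
  refine ⟨R, δ, hδ, C, fun Y hY => ?_⟩
  have hYA : 1 ≤ Y ^ A := Nat.one_le_pow _ _ hY
  obtain ⟨hfin, hcard⟩ := h (Y ^ A) hYA
  refine hfa Y hY (Fin n → ℕ) (LargePartsOf n N R (Y ^ A) δ) _ hfin hcard
    (fun s => {x | ∃ i, x ∣ s i}) ?_ ?_
  · rintro s ⟨a, b, e, hadm, ha, hb, hco, hprod, hs⟩
    refine ⟨∏ j, b j, ?_, ?_, ?_⟩
    · exact Nat.one_le_iff_ne_zero.2 (Finset.prod_ne_zero_iff.2 fun j _ => by
        have := (hb j).1; omega)
    · calc ∏ j, b j ≤ ∏ _j : Fin N, Y ^ A := Finset.prod_le_prod' fun j _ => (hb j).2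
        _ = (Y ^ A) ^ N := by rw [Finset.prod_const, Finset.card_univ, Fintype.card_fin]
    · rintro x ⟨i, hxi⟩ p hp
      rw [Nat.mem_primeFactors] at hp ⊢
      obtain ⟨hp1, hp2, hp3⟩ := hp
      have h1 : p ∣ ∏ j, (if R ≤ e i j then b j ^ e i j else 1) := by
        rw [← hs i]; exact hp2.trans hxi
      obtain ⟨j, -, hj⟩ := (Prime.dvd_finsetProd_iff (Nat.prime_iff.1 hp1) _).1 h1
      have h2 : p ∣ b j := by
        split_ifs at hj with hR
        · exact hp1.dvd_of_dvd_pow hj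
        · exact absurd (Nat.dvd_one.1 hj) hp1.one_lt.ne'
      refine ⟨hp1, h2.trans (Finset.dvd_prod_of_mem _ (Finset.mem_univ j)), ?_⟩
      exact Finset.prod_ne_zero_iff.2 fun j _ => by have := (hb j).1; omega
  · rintro x ⟨⟨hx2, a, b, e, i, j, hadm, ha, hb, hco, hprod, hbj, hR⟩, hx1, hxY⟩
    have hxA : x ^ A ≤ Y ^ A := Nat.pow_le_pow_left hxY A
    refine ⟨hx1, hxY, fun i => ∏ j, if R ≤ e i j then b j ^ e i j else 1, ?_, i, ?_⟩
    · refine ⟨a, b, e, hadm, fun i => (ha i).trans ?_, fun j => ⟨(hb j).1, (hb j).2.trans hxA⟩,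
        hco, hprod, fun i => rfl⟩
      refine Real.exp_le_exp.2 (Real.rpow_le_rpow (by positivity) ?_ hδ.le)
      exact_mod_cast hxA
    · have h1 : (if R ≤ e i j then b j ^ e i j else 1) ∣
          ∏ j, (if R ≤ e i j then b j ^ e i j else 1) :=
        Finset.dvd_prod_of_mem (fun j => if R ≤ e i j then b j ^ e i j else 1) (Finset.mem_univ j)
      rw [if_pos hR.le] at h1
      refine Dvd.dvd.trans ?_ h1
      rw [← hbj]
      exact dvd_pow_self _ (by omega)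

/-- the members of an admissible tuple as products of powers of at most `N` primes -/
lemma exists_bases {n N : ℕ} {a : Fin n → ℤ} (h : Admissible a) (hN : (primesOf a).card ≤ N) :
    ∃ (f : {p // p ∈ primesOf a} → Fin N) (x : Fin N → ℕ), Function.Injective f ∧
      (∀ p, x (f p) = p) ∧ (∀ j, x j = 1 ∨ x j ∈ primesOf a) ∧
      (∀ j k, j ≠ k → Nat.Coprime (x j) (x k)) ∧
      ∀ i, (a i).natAbs = ∏ j, x j ^ (a i).natAbs.factorization (x j) := by
  classical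
  obtain ⟨f⟩ : Nonempty ({p // p ∈ primesOf a} ↪ Fin N) := by
    refine Function.Embedding.nonempty_of_card_le ?_
    rw [Fintype.card_fin, Fintype.card_coe]
    exact hN
  obtain ⟨x, hx⟩ : ∃ x : Fin N → ℕ, x = Function.extend f Subtype.val (fun _ => 1) := ⟨_, rfl⟩
  have hx1 : ∀ p, x (f p) = p := fun p => by
    rw [hx]; exact f.injective.extend_apply _ _ p
  have hx2 : ∀ j, (¬ ∃ p, f p = j) → x j = 1 := fun j hj => by
    rw [hx]; exact Function.extend_apply' _ _ _ hj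
  have hpr : ∀ p ∈ primesOf a, p.Prime := fun p hp => Nat.prime_of_mem_primeFactors hp
  refine ⟨f, x, f.injective, hx1, ?_, ?_, ?_⟩
  · intro j
    by_cases hj : ∃ p, f p = j
    · obtain ⟨p, rfl⟩ := hj
      rw [hx1]; exact Or.inr p.2
    · exact Or.inl (hx2 j hj)
  · intro j k hjk
    by_cases hj : ∃ p, f p = j
    · by_cases hk : ∃ p, f p = k
      · obtain ⟨p, rfl⟩ := hj
        obtain ⟨q, rfl⟩ := hk
        rw [hx1, hx1, Nat.coprime_primes (hpr _ p.2) (hpr _ q.2)]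
        intro h0
        exact hjk (by rw [Subtype.ext h0])
      · rw [hx2 k hk]; exact Nat.coprime_one_right _
    · rw [hx2 j hj]; exact Nat.coprime_one_left _
  · intro i
    have h0 : (a i).natAbs ≠ 0 := Int.natAbs_ne_zero.2 (h.ne_zero i)
    have hprod0 : (∏ i, a i).natAbs ≠ 0 :=
      Int.natAbs_ne_zero.2 (Finset.prod_ne_zero_iff.2 fun i _ => h.ne_zero i)
    have hsub : (a i).natAbs.primeFactors ⊆ primesOf a := by
      refine Nat.primeFactors_mono ?_ hprod0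
      exact Int.natAbs_dvd_natAbs.2 (Finset.dvd_prod_of_mem a (Finset.mem_univ i))
    have h1 : ∏ j, x j ^ (a i).natAbs.factorization (x j) =
        ∏ j ∈ Finset.univ.map f, x j ^ (a i).natAbs.factorization (x j) := by
      symm
      refine Finset.prod_subset (Finset.subset_univ _) fun j _ hj => ?_
      rw [hx2 j, one_pow]
      rintro ⟨p, hp⟩
      exact hj (Finset.mem_map.2 ⟨p, Finset.mem_univ _, hp⟩)
    rw [h1, Finset.prod_map]
    have h2 : ∏ p : {p // p ∈ primesOf a}, x (f p) ^ (a i).natAbs.factorization (x (f p)) =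
        ∏ p : {p // p ∈ primesOf a}, (p : ℕ) ^ (a i).natAbs.factorization (p : ℕ) :=
      Finset.prod_congr rfl fun p _ => by rw [hx1]
    rw [h2, Finset.prod_coe_sort (primesOf a) (fun p => p ^ (a i).natAbs.factorization p)]
    conv_lhs => rw [← Nat.prod_factorization_pow_eq_self h0]
    exact Finsupp.prod_of_support_subset _ (by simpa using hsub) _ (fun _ _ => pow_zero _)

/-- the exceptional sets and what follows for the tuples built from the other bases -/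
theorem core (ε : ℝ) (hε : 0 < ε) : ∃ Bd : ℕ → Set ℕ, (∀ j, ∀ x ∈ Bd j, 2 ≤ x) ∧
    (∀ j, ∃ C : ℝ, ∀ X : ℕ, 1 ≤ X →
      (({x ∈ Bd j | 1 ≤ x ∧ x ≤ X}.ncard : ℕ) : ℝ) ≤ C * (X : ℝ) ^ ε) ∧
    ∀ (T : ℕ → ℕ) (E : Set ℕ), (∀ j x, x ∈ Bd j → T j ≤ x → x ∈ E) →
    ∀ n N A : ℕ, ∃ (R : ℕ) (δ : ℝ), 0 < δ ∧
      (∀ (X : ℝ) (a : Fin n → ℤ) (x : Fin N → ℕ) (e : Fin n → Fin N → ℕ), Admissible a →
        (∀ i, ((|a i| : ℤ) : ℝ) ≤ Real.exp (X ^ δ)) → (∀ j, 1 ≤ x j ∧ (x j : ℝ) ≤ X) →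
        (∀ j k, j ≠ k → Nat.Coprime (x j) (x k)) → (∀ i, (a i).natAbs = ∏ j, x j ^ e i j) →
        ∀ j, 2 ≤ x j → x j ∉ E → X ≤ (x j : ℝ) ^ A → ∀ i, e i j ≤ R) ∧
      (∀ (P : ℝ) (a : Fin n → ℤ), Admissible a → (primesOf a).card ≤ N →
        (∀ p ∈ primesOf a, (p : ℝ) ≤ P ∧ P ≤ (p : ℝ) ^ A ∧ p ∉ E) →
        (∀ i, ((|a i| : ℤ) : ℝ) ≤ Real.exp (P ^ δ)) → ∀ i, |a i| ≤ (rad a : ℤ) ^ R) := by
  classical
  have hcb := fun n N A : ℕ => count_bad n N A ε hε
  choose R δ hδ hC using hcb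
  refine ⟨fun j => Bad j.unpair.1 j.unpair.2.unpair.1 j.unpair.2.unpair.2
      (R j.unpair.1 j.unpair.2.unpair.1 j.unpair.2.unpair.2)
      (δ j.unpair.1 j.unpair.2.unpair.1 j.unpair.2.unpair.2), fun j x hx => hx.1,
      fun j => hC _ _ _, fun T E hTE n N A => ?_⟩
  obtain ⟨j₀, hj₀⟩ : ∃ j, j = Nat.pair n (Nat.pair N A) := ⟨_, rfl⟩
  have hu1 : (Nat.unpair j₀).1 = n := by rw [hj₀, Nat.unpair_pair]
  have hu2 : (Nat.unpair (Nat.unpair j₀).2).1 = N := by
    rw [hj₀, Nat.unpair_pair]; simp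
  have hu3 : (Nat.unpair (Nat.unpair j₀).2).2 = A := by
    rw [hj₀, Nat.unpair_pair]; simp
  have hBadE : ∀ x : ℕ, x ∈ Bad n N A (R n N A) (δ n N A) → T j₀ ≤ x → x ∈ E := by
    intro x hx hTx
    refine hTE j₀ x ?_ hTx
    simp only [hu1, hu2, hu3]
    exact hx
  obtain ⟨R₁, hR₁⟩ := exists_nat_ge (Real.exp (((T j₀ ^ A : ℕ) : ℝ) ^ δ n N A))
  have main : ∀ (X : ℝ) (a : Fin n → ℤ) (x : Fin N → ℕ) (e : Fin n → Fin N → ℕ), Admissible a →
        (∀ i, ((|a i| : ℤ) : ℝ) ≤ Real.exp (X ^ δ n N A)) → (∀ j, 1 ≤ x j ∧ (x j : ℝ) ≤ X) →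
        (∀ j k, j ≠ k → Nat.Coprime (x j) (x k)) → (∀ i, (a i).natAbs = ∏ j, x j ^ e i j) →
        ∀ j, 2 ≤ x j → x j ∉ E → X ≤ (x j : ℝ) ^ A → ∀ i, e i j ≤ max (R n N A) R₁ := by
    intro X a x e hadm ha hx hco hprod j hj2 hjE hXA i
    by_contra hcon
    rw [not_le] at hcon
    have h1 : R n N A < e i j := lt_of_le_of_lt (le_max_left _ _) hcon
    have h2 : R₁ < e i j := lt_of_le_of_lt (le_max_right _ _) hcon
    have hX0 : (0 : ℝ) ≤ X := le_trans (by positivity) (hx j).2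
    have ha' : ∀ i, ((|a i| : ℤ) : ℝ) ≤ Real.exp (((x j ^ A : ℕ) : ℝ) ^ δ n N A) := by
      intro i
      refine (ha i).trans (Real.exp_le_exp.2 (Real.rpow_le_rpow hX0 ?_ (hδ n N A).le))
      push_cast
      exact hXA
    have hbad : x j ∈ Bad n N A (R n N A) (δ n N A) := by
      refine ⟨hj2, a, x, e, i, j, hadm, ha', fun k => ⟨(hx k).1, ?_⟩, hco, hprod, rfl, h1⟩
      have := (hx k).2.trans hXA
      exact_mod_cast this
    by_cases hTx : T j₀ ≤ x j
    · exact hjE (hBadE _ hbad hTx)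
    · have h3 : x j ^ e i j ≤ (a i).natAbs := by
        rw [hprod i]
        refine Nat.le_of_dvd (Finset.prod_pos fun k _ => Nat.pow_pos (hx k).1) ?_
        exact Finset.dvd_prod_of_mem (fun k => x k ^ e i k) (Finset.mem_univ j)
      have h4 : e i j < x j ^ e i j := Nat.lt_pow_self (by omega)
      have h5 : ((e i j : ℕ) : ℝ) < R₁ := by
        calc ((e i j : ℕ) : ℝ) < (((a i).natAbs : ℕ) : ℝ) := by exact_mod_cast h4.trans_le h3
          _ = ((|a i| : ℤ) : ℝ) := by rw [Int.abs_eq_natAbs]; simp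
          _ ≤ Real.exp (((x j ^ A : ℕ) : ℝ) ^ δ n N A) := ha' i
          _ ≤ Real.exp (((T j₀ ^ A : ℕ) : ℝ) ^ δ n N A) := by
              refine Real.exp_le_exp.2 (Real.rpow_le_rpow (by positivity) ?_ (hδ n N A).le)
              exact_mod_cast Nat.pow_le_pow_left (not_le.1 hTx).le A
          _ ≤ R₁ := hR₁
      have h6 : e i j < R₁ := by exact_mod_cast h5
      omega
  refine ⟨max (R n N A) R₁, δ n N A, hδ n N A, main, ?_⟩
  intro P a hadm hN hP ha i
  obtain ⟨f, x, hf, hxf, hx1, hco, hprod⟩ := exists_bases hadm hN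
  have hprime : ∀ p ∈ primesOf a, p.Prime := fun p hp => Nat.prime_of_mem_primeFactors hp
  -- no primes: the members are `± 1`
  by_cases hemp : primesOf a = ∅
  · have h1 : (a i).natAbs = 1 := by
      rw [hprod i]
      refine Finset.prod_eq_one fun j _ => ?_
      rcases hx1 j with h | h
      · rw [h, one_pow]
      · rw [hemp] at h; simp at h
    have h2 : |a i| = 1 := by rw [Int.abs_eq_natAbs, h1]; rfl
    rw [h2]
    unfold rad
    rw [hemp]
    simp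
  obtain ⟨p₀, hp₀⟩ := Finset.nonempty_iff_ne_empty.2 hemp
  have hP2 : (2 : ℝ) ≤ P := by
    have h1 : (2 : ℝ) ≤ (p₀ : ℝ) := by exact_mod_cast (hprime p₀ hp₀).two_le
    exact h1.trans (hP p₀ hp₀).1
  have hx : ∀ j, 1 ≤ x j ∧ (x j : ℝ) ≤ P := by
    intro j
    rcases hx1 j with h | h
    · rw [h]; exact ⟨le_refl _, by push_cast; linarith⟩
    · exact ⟨(hprime _ h).pos, (hP _ h).1⟩
  have hexp : ∀ p : {p // p ∈ primesOf a},
      (a i).natAbs.factorization (p : ℕ) ≤ max (R n N A) R₁ := by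
    intro p
    have h1 := main P a x (fun i j => (a i).natAbs.factorization (x j)) hadm ha hx hco hprod (f p)
      (by rw [hxf]; exact (hprime _ p.2).two_le) (by rw [hxf]; exact (hP _ p.2).2.2)
      (by rw [hxf]; exact (hP _ p.2).2.1) i
    simp only [hxf] at h1
    exact h1
  have h0 : (a i).natAbs ≠ 0 := Int.natAbs_ne_zero.2 (hadm.ne_zero i)
  have hprod0 : (∏ i, a i).natAbs ≠ 0 :=
    Int.natAbs_ne_zero.2 (Finset.prod_ne_zero_iff.2 fun i _ => hadm.ne_zero i)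
  have hsub : (a i).natAbs.primeFactors ⊆ primesOf a := by
    refine Nat.primeFactors_mono ?_ hprod0
    exact Int.natAbs_dvd_natAbs.2 (Finset.dvd_prod_of_mem a (Finset.mem_univ i))
  have h7 : (a i).natAbs = ∏ p ∈ primesOf a, p ^ (a i).natAbs.factorization p := by
    conv_lhs => rw [← Nat.prod_factorization_pow_eq_self h0]
    exact Finsupp.prod_of_support_subset _ (by simpa using hsub) _ (fun _ _ => pow_zero _)
  have h8 : (a i).natAbs ≤ rad a ^ (max (R n N A) R₁) := by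
    rw [h7]
    unfold rad
    rw [← Finset.prod_pow]
    refine Finset.prod_le_prod' fun p hp => ?_
    exact Nat.pow_le_pow_right (hprime p hp).pos (hexp ⟨p, hp⟩)
  rw [Int.abs_eq_natAbs]
  exact_mod_cast h8

end Pool.Agent.Seat74.TN.Bases
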