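import Mathlib
import Pool.Agent.Results.MP_a95293_nt.HugePower
import Pool.Agent.Seat74.TN.Bases

set_option autoImplicit false

namespace Pool.Agent.Seat74.TN.Huge

open Pool.Agent.Results.MP_a95293_nt.HugePower (Parts)

open Pool.Agent.Seat74.TN.Bases (Admissible rad primesOf)

/-- the integers `x` which occur with an exponent larger than `R` as one of the bases, the others
being at most `x ^ A` -/
def Bad (n N B A R R' : ℕ) (δ : ℝ) : Set ℕ :=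
  {x | 2 ≤ x ∧ ∃ (a : Fin (n + 1) → ℤ) (b : Fin N → ℕ) (e : Fin n → Fin N → ℕ) (s : Fin n → ℤ)
    (s₀ z : ℤ) (r : ℕ) (i : Fin n) (j : Fin N),
    Admissible a ∧ (∀ i, ((|a i| : ℤ) : ℝ) ≤ Real.exp (((x ^ A : ℕ) : ℝ) ^ δ)) ∧
    (∀ j, 1 ≤ b j ∧ b j ≤ x ^ A) ∧ (∀ i, |s i| ≤ ((x ^ A : ℕ) : ℤ) ^ B) ∧
    |s₀| ≤ ((x ^ A : ℕ) : ℤ) ^ B ∧ R' ≤ r ∧
    (∀ i, a (Fin.castSucc i) = s i * ∏ j, (b j : ℤ) ^ e i j) ∧ a (Fin.last n) = s₀ * z ^ r ∧
    b j = x ∧ R < e i j}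

lemma count_bad (n N B A : ℕ) (hn : 1 ≤ n) (ε : ℝ) (hε : 0 < ε) :
    ∃ (R R' : ℕ) (δ : ℝ), 0 < δ ∧ ∃ C : ℝ, ∀ Y : ℕ, 1 ≤ Y →
      (({x ∈ Bad n N B A R R' δ | 1 ≤ x ∧ x ≤ Y}.ncard : ℕ) : ℝ) ≤ C * (Y : ℝ) ^ ε := by
  classical
  obtain ⟨C, ε', hC, hε', hfa⟩ := few_attached A N ε hε
  obtain ⟨R, R', δ, hδ, h⟩ := Pool.Agent.Results.MP_a95293_nt.HugePower.result n N B hn ε' hε'
  refine ⟨R, R', δ, hδ, C, fun Y hY => ?_⟩
  have hYA : 1 ≤ Y ^ A := Nat.one_le_pow _ _ hY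
  obtain ⟨hfin, hcard⟩ := h (Y ^ A) hYA
  refine hfa Y hY ((Fin n → ℕ) × ℕ) (Parts n N B R R' (Y ^ A) δ) _ hfin hcard
    (fun s => {x | ∃ i, x ∣ s.1 i}) ?_ ?_
  · rintro p ⟨a, b, e, s, s₀, z, r, hadm, ha, hb, hs, hs₀, hr, hprod, hlast, hp, hp2⟩
    refine ⟨∏ j, b j, ?_, ?_, ?_⟩
    · exact Nat.one_le_iff_ne_zero.2 (Finset.prod_ne_zero_iff.2 fun j _ => by
        have := (hb j).1; omega)
    · calc ∏ j, b j ≤ ∏ _j : Fin N, Y ^ A := Finset.prod_le_prod' fun j _ => (hb j).2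
        _ = (Y ^ A) ^ N := by rw [Finset.prod_const, Finset.card_univ, Fintype.card_fin]
    · rintro x ⟨i, hxi⟩ q hq
      rw [Nat.mem_primeFactors] at hq ⊢
      obtain ⟨hq1, hq2, hq3⟩ := hq
      have h1 : q ∣ ∏ j, (if R ≤ e i j then b j ^ e i j else 1) := by
        rw [← hp i]; exact hq2.trans hxi
      obtain ⟨j, -, hj⟩ := (Prime.dvd_finsetProd_iff (Nat.prime_iff.1 hq1) _).1 h1
      have h2 : q ∣ b j := by
        split_ifs at hj with hR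
        · exact hq1.dvd_of_dvd_pow hj
        · exact absurd (Nat.dvd_one.1 hj) hq1.one_lt.ne'
      refine ⟨hq1, h2.trans (Finset.dvd_prod_of_mem _ (Finset.mem_univ j)), ?_⟩
      exact Finset.prod_ne_zero_iff.2 fun j _ => by have := (hb j).1; omega
  · rintro x ⟨⟨hx2, a, b, e, s, s₀, z, r, i, j, hadm, ha, hb, hs, hs₀, hr, hprod, hlast, hbj,
      hR⟩, hx1, hxY⟩
    have hxA : x ^ A ≤ Y ^ A := Nat.pow_le_pow_left hxY A
    have hxAB : ((x ^ A : ℕ) : ℤ) ^ B ≤ ((Y ^ A : ℕ) : ℤ) ^ B := by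
      exact_mod_cast Nat.pow_le_pow_left hxA B
    refine ⟨hx1, hxY, (fun i => ∏ j, if R ≤ e i j then b j ^ e i j else 1, z.natAbs ^ r), ?_,
      i, ?_⟩
    · refine ⟨a, b, e, s, s₀, z, r, hadm, fun i => (ha i).trans ?_,
        fun j => ⟨(hb j).1, (hb j).2.trans hxA⟩, fun i => (hs i).trans hxAB, hs₀.trans hxAB, hr,
        hprod, hlast, fun i => rfl, rfl⟩
      refine Real.exp_le_exp.2 (Real.rpow_le_rpow (by positivity) ?_ hδ.le)
      exact_mod_cast hxA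
    · have h1 : (if R ≤ e i j then b j ^ e i j else 1) ∣
          ∏ j, (if R ≤ e i j then b j ^ e i j else 1) :=
        Finset.dvd_prod_of_mem (fun j => if R ≤ e i j then b j ^ e i j else 1) (Finset.mem_univ j)
      rw [if_pos hR.le] at h1
      refine Dvd.dvd.trans ?_ h1
      rw [← hbj]
      exact dvd_pow_self _ (by omega)

/-- the exceptional sets and what follows for the tuples built from the other bases -/
theorem core (ε : ℝ) (hε : 0 < ε) : ∃ Bd : ℕ → Set ℕ, (∀ j, ∀ x ∈ Bd j, 2 ≤ x) ∧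
    (∀ j, ∃ C : ℝ, ∀ X : ℕ, 1 ≤ X →
      (({x ∈ Bd j | 1 ≤ x ∧ x ≤ X}.ncard : ℕ) : ℝ) ≤ C * (X : ℝ) ^ ε) ∧
    ∀ (T : ℕ → ℕ) (E : Set ℕ), (∀ j x, x ∈ Bd j → T j ≤ x → x ∈ E) →
    ∀ n N B A : ℕ, 1 ≤ n → ∃ (R M : ℕ) (δ : ℝ), 0 < δ ∧
      ∀ (X : ℝ) (a : Fin (n + 1) → ℤ) (x : Fin N → ℕ) (e : Fin n → Fin N → ℕ) (s : Fin n → ℤ)
        (s₀ z : ℤ) (r : ℕ), Admissible a → 2 ≤ X →
        (∀ i, ((|a i| : ℤ) : ℝ) ≤ Real.exp (X ^ δ)) → (∀ j, 1 ≤ x j ∧ (x j : ℝ) ≤ X) →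
        (∀ i, ((|s i| : ℤ) : ℝ) ≤ X ^ B) → ((|s₀| : ℤ) : ℝ) ≤ X ^ B → R ≤ r →
        (∀ i, a (Fin.castSucc i) = s i * ∏ j, (x j : ℤ) ^ e i j) →
        a (Fin.last n) = s₀ * z ^ r →
        (∀ j, 2 ≤ x j → x j ∉ E → X ≤ (x j : ℝ) ^ A → ∀ i, e i j ≤ R) ∧
        ((∀ j, 2 ≤ x j → x j ∉ E ∧ X ≤ (x j : ℝ) ^ A) →
          (∀ i, ((|a i| : ℤ) : ℝ) ≤ X ^ M) ∧
          (X ≤ (rad a : ℝ) ^ A → ∀ i, |a i| ≤ (rad a : ℤ) ^ M)) := by
  classical
  have hcb := fun n N B A : ℕ => count_bad (n + 1) N B A (Nat.le_add_left _ _) ε hε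
  choose R R' δ hδ hC using hcb
  refine ⟨fun j => Bad (j.unpair.1 + 1)
      j.unpair.2.unpair.1 j.unpair.2.unpair.2.unpair.1 j.unpair.2.unpair.2.unpair.2
      (R j.unpair.1 j.unpair.2.unpair.1 j.unpair.2.unpair.2.unpair.1 j.unpair.2.unpair.2.unpair.2)
      (R' j.unpair.1 j.unpair.2.unpair.1 j.unpair.2.unpair.2.unpair.1 j.unpair.2.unpair.2.unpair.2)
      (δ j.unpair.1 j.unpair.2.unpair.1 j.unpair.2.unpair.2.unpair.1 j.unpair.2.unpair.2.unpair.2),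
      fun j x hx => hx.1, fun j => hC _ _ _ _, fun T E hTE n' N B A hn' => ?_⟩
  obtain ⟨n, rfl⟩ : ∃ n, n' = n + 1 := ⟨n' - 1, by omega⟩
  obtain ⟨j₀, hj₀⟩ : ∃ j, j = Nat.pair n (Nat.pair N (Nat.pair B A)) := ⟨_, rfl⟩
  have hu1 : (Nat.unpair j₀).1 = n := by rw [hj₀, Nat.unpair_pair]
  have hu2 : (Nat.unpair (Nat.unpair j₀).2).1 = N := by
    rw [hj₀, Nat.unpair_pair]; simp
  have hu3 : (Nat.unpair (Nat.unpair (Nat.unpair j₀).2).2).1 = B := by
    rw [hj₀, Nat.unpair_pair]; simp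
  have hu4 : (Nat.unpair (Nat.unpair (Nat.unpair j₀).2).2).2 = A := by
    rw [hj₀, Nat.unpair_pair]; simp
  have hBadE : ∀ x : ℕ, x ∈ Bad (n + 1) N B A (R n N B A) (R' n N B A) (δ n N B A) →
      T j₀ ≤ x → x ∈ E := by
    intro x hx hTx
    refine hTE j₀ x ?_ hTx
    simp only [hu1, hu2, hu3, hu4]
    exact hx
  obtain ⟨R₁, hR₁⟩ := exists_nat_ge (Real.exp (((T j₀ ^ A : ℕ) : ℝ) ^ δ n N B A))
  obtain ⟨R₂, hR₂⟩ : ∃ R₂, R₂ = max (R n N B A) (max (R' n N B A) R₁) := ⟨_, rfl⟩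
  obtain ⟨M₀, hM₀⟩ : ∃ M₀, M₀ = B + (n + 1) + N * R₂ := ⟨_, rfl⟩
  refine ⟨R₂, max M₀ (A * M₀), δ n N B A, hδ n N B A, ?_⟩
  intro X a x e s s₀ z r hadm hX2 ha hx hs hs₀ hr hprod hlast
  have hX0 : (0 : ℝ) ≤ X := by linarith
  have hX1 : (1 : ℝ) ≤ X := by linarith
  have main : ∀ j, 2 ≤ x j → x j ∉ E → X ≤ (x j : ℝ) ^ A → ∀ i, e i j ≤ R₂ := by
    intro j hj2 hjE hXA i
    by_contra hcon
    rw [not_le, hR₂] at hcon
    have h1 : R n N B A < e i j := lt_of_le_of_lt (le_max_left _ _) hcon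
    have h2 : R₁ < e i j := lt_of_le_of_lt ((le_max_right _ _).trans (le_max_right _ _)) hcon
    have hr' : R' n N B A ≤ r := by
      refine le_trans ?_ hr
      rw [hR₂]
      exact (le_max_left _ _).trans (le_max_right _ _)
    have ha' : ∀ i, ((|a i| : ℤ) : ℝ) ≤ Real.exp (((x j ^ A : ℕ) : ℝ) ^ δ n N B A) := by
      intro i
      refine (ha i).trans (Real.exp_le_exp.2 (Real.rpow_le_rpow hX0 ?_ (hδ n N B A).le))
      push_cast
      exact hXA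
    have hXB : X ^ B ≤ (((((x j ^ A : ℕ) : ℤ) ^ B : ℤ)) : ℝ) := by
      push_cast
      exact pow_le_pow_left₀ hX0 hXA B
    have hbad : x j ∈ Bad (n + 1) N B A (R n N B A) (R' n N B A) (δ n N B A) := by
      refine ⟨hj2, a, x, e, s, s₀, z, r, i, j, hadm, ha', fun k => ⟨(hx k).1, ?_⟩, fun k => ?_, ?_,
        hr', hprod, hlast, rfl, h1⟩
      · have := (hx k).2.trans hXA
        exact_mod_cast this
      · exact_mod_cast (hs k).trans hXB
      · exact_mod_cast hs₀.trans hXB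
    by_cases hTx : T j₀ ≤ x j
    · exact hjE (hBadE _ hbad hTx)
    · have hsi : s i ≠ 0 := by
        intro h0
        apply Bases.Admissible.ne_zero hadm (Fin.castSucc i)
        rw [hprod i, h0, zero_mul]
      have h3 : x j ^ e i j ≤ (a (Fin.castSucc i)).natAbs := by
        rw [hprod i, Int.natAbs_mul]
        refine Nat.le_of_dvd (Nat.mul_pos (Int.natAbs_pos.2 hsi) ?_) ?_
        · rw [Int.natAbs_pos]
          exact Finset.prod_ne_zero_iff.2 fun k _ => pow_ne_zero _ (by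
            have := (hx k).1; omega)
        · refine Dvd.dvd.mul_left ?_ _
          have h4 : ((x j : ℤ) ^ e i j) ∣ ∏ k, (x k : ℤ) ^ e i k :=
            Finset.dvd_prod_of_mem (fun k => (x k : ℤ) ^ e i k) (Finset.mem_univ j)
          have h5 := Int.natAbs_dvd_natAbs.2 h4
          rwa [Int.natAbs_pow, Int.natAbs_natCast] at h5
      have h4 : e i j < x j ^ e i j := Nat.lt_pow_self (by omega)
      have h5 : ((e i j : ℕ) : ℝ) < R₁ := by
        calc ((e i j : ℕ) : ℝ) < (((a (Fin.castSucc i)).natAbs : ℕ) : ℝ) := by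
              exact_mod_cast h4.trans_le h3
          _ = ((|a (Fin.castSucc i)| : ℤ) : ℝ) := by rw [Int.abs_eq_natAbs]; simp
          _ ≤ Real.exp (((x j ^ A : ℕ) : ℝ) ^ δ n N B A) := ha' _
          _ ≤ Real.exp (((T j₀ ^ A : ℕ) : ℝ) ^ δ n N B A) := by
              refine Real.exp_le_exp.2 (Real.rpow_le_rpow (by positivity) ?_ (hδ n N B A).le)
              exact_mod_cast Nat.pow_le_pow_left (not_le.1 hTx).le A
          _ ≤ R₁ := hR₁
      have h6 : e i j < R₁ := by exact_mod_cast h5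
      omega
  refine ⟨main, fun hall => ?_⟩
  -- the first `n + 1` members
  have hfirst : ∀ i : Fin (n + 1), ((|a (Fin.castSucc i)| : ℤ) : ℝ) ≤ X ^ (B + N * R₂) := by
    intro i
    rw [hprod i, abs_mul, Finset.abs_prod]
    push_cast
    rw [pow_add]
    refine mul_le_mul (by exact_mod_cast hs i) ?_ (Finset.prod_nonneg fun _ _ => by positivity)
      (by positivity)
    calc ∏ j, |((x j : ℝ)) ^ e i j| ≤ ∏ _j : Fin N, X ^ R₂ := by
          refine Finset.prod_le_prod (fun _ _ => abs_nonneg _) fun j _ => ?_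
          rw [abs_of_nonneg (by positivity)]
          by_cases hj : 2 ≤ x j
          · have h1 := main j hj (hall j hj).1 (hall j hj).2 i
            have h2 : (1 : ℝ) ≤ (x j : ℝ) := by exact_mod_cast (hx j).1
            exact (pow_le_pow_right₀ h2 h1).trans (pow_le_pow_left₀ (by positivity) (hx j).2 _)
          · have h1 : x j = 1 := by have := (hx j).1; omega
            rw [h1]
            simp only [Nat.cast_one, one_pow]
            exact one_le_pow₀ hX1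
      _ = X ^ (N * R₂) := by
          rw [Finset.prod_const, Finset.card_univ, Fintype.card_fin, ← pow_mul, mul_comm]
  have hn2 : ((n : ℝ) + 1) ≤ X ^ (n + 1) := by
    have h1 : (n + 1 : ℕ) < 2 ^ (n + 1) := Nat.lt_two_pow_self
    have h2 : ((n + 1 : ℕ) : ℝ) ≤ (2 : ℝ) ^ (n + 1) := by exact_mod_cast h1.le
    push_cast at h2
    exact h2.trans (pow_le_pow_left₀ (by norm_num) hX2 _)
  have hall' : ∀ i, ((|a i| : ℤ) : ℝ) ≤ X ^ M₀ := by
    intro i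
    refine Fin.lastCases ?_ (fun i => ?_) i
    · have h1 : a (Fin.last (n + 1)) = -∑ i : Fin (n + 1), a (Fin.castSucc i) := by
        have := hadm.2.1
        rw [Fin.sum_univ_castSucc] at this
        linarith
      rw [h1, abs_neg]
      have h2 : ((|∑ i : Fin (n + 1), a (Fin.castSucc i)| : ℤ) : ℝ) ≤
          ∑ i : Fin (n + 1), ((|a (Fin.castSucc i)| : ℤ) : ℝ) := by
        exact_mod_cast Finset.abs_sum_le_sum_abs _ _
      refine h2.trans ((Finset.sum_le_sum fun i _ => hfirst i).trans ?_)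
      rw [Finset.sum_const, Finset.card_univ, Fintype.card_fin, nsmul_eq_mul]
      push_cast
      calc ((n : ℝ) + 1) * X ^ (B + N * R₂) ≤ X ^ (n + 1) * X ^ (B + N * R₂) :=
            mul_le_mul_of_nonneg_right hn2 (by positivity)
        _ = X ^ M₀ := by rw [← pow_add, hM₀]; congr 1; ring
    · refine (hfirst i).trans (pow_le_pow_right₀ hX1 ?_)
      rw [hM₀]; omega
  refine ⟨fun i => (hall' i).trans (pow_le_pow_right₀ hX1 (le_max_left _ _)), fun hXr i => ?_⟩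
  have hr1 : (1 : ℝ) ≤ (rad a : ℝ) := by
    have : 1 ≤ rad a := Finset.prod_pos (fun _ h => (Nat.prime_of_mem_primeFactors h).pos)
    exact_mod_cast this
  have h1 : ((|a i| : ℤ) : ℝ) ≤ (rad a : ℝ) ^ (max M₀ (A * M₀)) := by
    calc ((|a i| : ℤ) : ℝ) ≤ X ^ M₀ := hall' i
      _ ≤ ((rad a : ℝ) ^ A) ^ M₀ := pow_le_pow_left₀ hX0 hXr _
      _ = (rad a : ℝ) ^ (A * M₀) := (pow_mul _ _ _).symm
      _ ≤ _ := pow_le_pow_right₀ hr1 (le_max_right _ _)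
  exact_mod_cast h1

end Pool.Agent.Seat74.TN.Huge
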