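import Mathlib
import Pool.Agent.Helper259.AbsHt

/-!
Absolute heights of algebraic numbers in different number fields, norms and valuations of norms.
-/

set_option autoImplicit false

namespace Pool.Agent.Seat74.TN

open NumberField Height Module
open Pool.Agent.Helper259.AbsHt (Qbar absLogHeight absLogHeight_eq exists_nf)

/-- the absolute logarithmic height of an algebraic number -/
noncomputable def hh (x : Qbar) : ℝ := absLogHeight ![x, 1]

lemma hh_emb {L : Type} [Field L] [NumberField L] (τ : L →+* Qbar) (y : L) :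
    hh (τ y) = logHeight₁ y / finrank ℚ L := by
  have h := absLogHeight_eq L τ ![y, 1]
  rw [← logHeight₁_eq_logHeight] at h
  rw [hh, ← h]
  congr 1
  funext i
  fin_cases i <;> simp

lemma exists_common (x y : Qbar) : ∃ (L : Type) (_ : Field L) (_ : NumberField L) (τ : L →+* Qbar)
    (a b : L), τ a = x ∧ τ b = y := by
  obtain ⟨L, hL, hmem⟩ := exists_nf {x, y} (by simp)
  exact ⟨L, inferInstance, hL, algebraMap L Qbar, ⟨x, hmem x (by simp)⟩, ⟨y, hmem y (by simp)⟩,
    rfl, rfl⟩

lemma hh_mul (x y : Qbar) : hh (x * y) ≤ hh x + hh y := by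
  obtain ⟨L, _, _, τ, a, b, rfl, rfl⟩ := exists_common x y
  rw [← map_mul, hh_emb, hh_emb, hh_emb, ← add_div]
  exact div_le_div_of_nonneg_right (logHeight₁_mul_le a b) (Nat.cast_nonneg _)

lemma hh_inv (x : Qbar) : hh x⁻¹ = hh x := by
  obtain ⟨L, _, _, τ, a, b, rfl, -⟩ := exists_common x x
  rw [← map_inv₀, hh_emb, hh_emb, logHeight₁_inv]

lemma hh_one : hh 1 = 0 := by
  have h := hh_emb (algebraMap ℚ Qbar) 1
  rw [map_one] at h
  rw [h, logHeight₁_one, zero_div]

lemma hh_prod {ι : Type*} (s : Finset ι) (x : ι → Qbar) :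
    hh (∏ i ∈ s, x i) ≤ ∑ i ∈ s, hh (x i) := by
  classical
  induction s using Finset.induction_on with
  | empty => simp [hh_one]
  | insert i s hi ih =>
    rw [Finset.prod_insert hi, Finset.sum_insert hi]
    exact (hh_mul _ _).trans (by linarith)

/-- embeddings in `ℂ` factor over one embedding of the algebraic closure of `ℚ` -/
lemma exists_phi : ∃ φ : Qbar →+* ℂ, ∀ (K : Type) [Field K] [NumberField K] (σ : K →+* ℂ),
    ∃ τ : K →+* Qbar, ∀ y, φ (τ y) = σ y := by
  classical
  have _ : Algebra.IsAlgebraic ℚ Qbar := AlgebraicClosure.isAlgebraic ℚ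
  let φ : Qbar →ₐ[ℚ] ℂ := IsAlgClosed.lift
  refine ⟨(φ : Qbar →+* ℂ), ?_⟩
  intro K _ _ σ
  have hinj : Function.Injective (fun τ : K →ₐ[ℚ] Qbar => φ.comp τ) := by
    intro τ τ' h
    ext y
    apply (φ : Qbar →+* ℂ).injective
    exact congrArg (fun f : K →ₐ[ℚ] ℂ => f y) h
  have hbij : Function.Bijective (fun τ : K →ₐ[ℚ] Qbar => φ.comp τ) := by
    rw [Fintype.bijective_iff_injective_and_card]
    exact ⟨hinj, by rw [AlgHom.card, AlgHom.card]⟩
  obtain ⟨τ, hτ⟩ := hbij.2 (RingHom.toRatAlgHom σ)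
  refine ⟨(τ : K →+* Qbar), fun y => ?_⟩
  exact congrArg (fun f : K →ₐ[ℚ] ℂ => f y) hτ

/-- norms in extensions -/
lemma norm_pow {K L : Type} [Field K] [NumberField K] [Field L] [NumberField L] (j : K →+* L) :
    ∃ m : ℕ, m * finrank ℚ K = finrank ℚ L ∧
      ∀ w : K, Algebra.norm ℚ (j w) = (Algebra.norm ℚ w) ^ m := by
  let _ : Algebra K L := j.toAlgebra
  have _ : IsScalarTower ℚ K L := IsScalarTower.of_algebraMap_eq (fun x => by simp)
  have _ : FiniteDimensional K L := FiniteDimensional.right ℚ K L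
  refine ⟨finrank K L, ?_, fun w => ?_⟩
  · rw [mul_comm]
    exact Module.finrank_mul_finrank ℚ K L
  · rw [← Algebra.norm_norm (S := K), show j w = algebraMap K L w from rfl,
      Algebra.norm_algebraMap, map_pow]

/-- the height of the norm is at most the relative height -/
lemma logHeight₁_norm_le {L : Type} [Field L] [NumberField L] (w : L) :
    logHeight₁ (Algebra.norm ℚ w) ≤ logHeight₁ w := by
  have h1 : hh (algebraMap ℚ Qbar (Algebra.norm ℚ w)) = logHeight₁ (Algebra.norm ℚ w) := by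
    rw [hh_emb, finrank_self, Nat.cast_one, div_one]
  rw [← h1, Algebra.norm_eq_prod_embeddings ℚ Qbar w]
  refine (hh_prod _ _).trans ?_
  have h2 : ∀ σ : L →ₐ[ℚ] Qbar, hh (σ w) = logHeight₁ w / finrank ℚ L := fun σ =>
    hh_emb (σ : L →+* Qbar) w
  rw [Finset.sum_congr rfl fun σ _ => h2 σ, Finset.sum_const, Finset.card_univ,
    AlgHom.card, nsmul_eq_mul]
  have h3 : (0 : ℝ) < finrank ℚ L := by exact_mod_cast (finrank_pos (R := ℚ) (M := L))
  rw [mul_div_cancel₀]
  exact h3.ne'

/-- valuations and heights of rational numbers -/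
lemma padic_le (p : ℕ) (hp : p.Prime) (q : ℚ) (hq : q ≠ 0) :
    |(padicValRat p q : ℝ)| * Real.log p ≤ logHeight₁ q := by
  have _ : Fact p.Prime := ⟨hp⟩
  rw [Rat.logHeight₁_eq_log_max]
  have hlog : 0 ≤ Real.log p := Real.log_natCast_nonneg p
  have hden : (q.den : ℕ) ≠ 0 := q.den_ne_zero
  have hnum : q.num.natAbs ≠ 0 := Int.natAbs_ne_zero.2 (Rat.num_ne_zero.2 hq)
  have key : ∀ m : ℕ, m ≠ 0 → m ≤ max q.num.natAbs q.den → (padicValNat p m : ℝ) * Real.log p ≤
      Real.log ((max q.num.natAbs q.den : ℕ) : ℝ) := by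
    intro m hm hmm
    rw [← Real.log_pow]
    refine Real.log_le_log (by have := hp.pos; positivity) ?_
    have h1 : p ^ padicValNat p m ≤ m := Nat.le_of_dvd (Nat.pos_of_ne_zero hm) pow_padicValNat_dvd
    exact_mod_cast h1.trans hmm
  have h1 := key _ hnum (le_max_left _ _)
  have h2 := key _ hden (le_max_right _ _)
  have h3 : (padicValRat p q : ℝ) = (padicValNat p q.num.natAbs : ℝ) - padicValNat p q.den := by
    rw [padicValRat_def, padicValInt]
    simp
  rw [h3]
  have h4 : |(padicValNat p q.num.natAbs : ℝ) - padicValNat p q.den| ≤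
      max (padicValNat p q.num.natAbs : ℝ) (padicValNat p q.den) := by
    have h5 : (0 : ℝ) ≤ padicValNat p q.num.natAbs := Nat.cast_nonneg _
    have h6 : (0 : ℝ) ≤ padicValNat p q.den := Nat.cast_nonneg _
    rw [abs_le]
    constructor
    · have := le_max_right (padicValNat p q.num.natAbs : ℝ) (padicValNat p q.den)
      linarith
    · have := le_max_left (padicValNat p q.num.natAbs : ℝ) (padicValNat p q.den)
      linarith
  refine (mul_le_mul_of_nonneg_right h4 hlog).trans ?_
  rcases le_total (padicValNat p q.num.natAbs : ℝ) (padicValNat p q.den) with h | h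
  · rw [max_eq_right h]; exact h2
  · rw [max_eq_left h]; exact h1

end Pool.Agent.Seat74.TN
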