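import Mathlib
import Pool.Agent.Results.MP_f5a5f7_nt.FewClassesAllFields
import Pool.Agent.Seat74.TN.Ht

/-!
Two solutions of abc equations over number fields in the same class have the same primes with large
exponents.
-/

set_option autoImplicit false

namespace Pool.Agent.Seat74.TN

open NumberField Height Module
open Pool.Agent.Results.MP_f5a5f7_nt.FewClassesAllFields (SmallNumber)
open Pool.Agent.Helper259.AbsHt (Qbar)

/-- `x` is an element, not `0` or `1`, of the number field `K` of degree at most `κ`, equal to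
`s * ∏ j, y j ^ f j`, where the norm of `y j` is up to the sign a positive power of the prime `p j`, these primes are
different, the absolute height of `y j` is at most `Y`, that of `s` at most `Y ^ B` and the exponents
`f j` are at most `Y ^ δ`; and `1 - x = s' * (∏ j, y j ^ e j) * z ^ r`, where the absolute height of
`s'` is at most `Y ^ B`, the exponents `e j` are at most `Y ^ δ` and `R ≤ r ≤ Y ^ δ` -/
def Inst (P κ B R : ℕ) (δ Y : ℝ) (K : Type) [Field K] [NumberField K] (x : K) (p : Fin P → ℕ)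
    (y : Fin P → K) (s : K) (f : Fin P → ℤ) : Prop :=
  finrank ℚ K ≤ κ ∧ x ≠ 0 ∧ x ≠ 1 ∧ (∀ j, (p j).Prime) ∧ Function.Injective p ∧
  (∀ j, ∃ a : ℕ, 0 < a ∧ |Algebra.norm ℚ (y j)| = (p j : ℚ) ^ a) ∧
  (∀ j, mulHeight₁ (y j) ≤ Y ^ finrank ℚ K) ∧ mulHeight₁ s ≤ (Y ^ B) ^ finrank ℚ K ∧
  (∀ j, |(f j : ℝ)| ≤ Y ^ δ) ∧ x = s * ∏ j, y j ^ f j ∧
  ∃ (s' z : K) (e : Fin P → ℤ) (r : ℕ), R ≤ r ∧ (r : ℝ) ≤ Y ^ δ ∧ (∀ j, |(e j : ℝ)| ≤ Y ^ δ) ∧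
    mulHeight₁ s' ≤ (Y ^ B) ^ finrank ℚ K ∧ 1 - x = s' * (∏ j, y j ^ e j) * z ^ r

lemma Inst.mono {P κ B R : ℕ} {δ Y Y' : ℝ} (hδ : 0 ≤ δ) (hY : 1 ≤ Y) (hYY : Y ≤ Y') {K : Type}
    [Field K] [NumberField K] {x : K} {p : Fin P → ℕ} {y : Fin P → K} {s : K} {f : Fin P → ℤ}
    (h : Inst P κ B R δ Y K x p y s f) : Inst P κ B R δ Y' K x p y s f := by
  obtain ⟨h1, h2, h3, h4, h5, h6, h7, h8, h9, h10, s', z, e, r, h11, h12, h13, h14, h15⟩ := h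
  have hd : Y ^ δ ≤ Y' ^ δ := Real.rpow_le_rpow (by linarith) hYY hδ
  have hk : ∀ k : ℕ, Y ^ k ≤ Y' ^ k := fun k => pow_le_pow_left₀ (by linarith) hYY k
  exact ⟨h1, h2, h3, h4, h5, h6, fun j => (h7 j).trans (hk _),
    h8.trans (pow_le_pow_left₀ (by positivity) (hk _) _), fun j => (h9 j).trans hd, h10, s', z, e,
    r, h11, h12.trans hd, fun j => (h13 j).trans hd,
    h14.trans (pow_le_pow_left₀ (by positivity) (hk _) _), h15⟩

/-- the norm as a homomorphism of monoids with zero -/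
noncomputable def nrm (K : Type) [Field K] [NumberField K] : K →*₀ ℚ :=
  { (Algebra.norm ℚ : K →* ℚ) with map_zero' := Algebra.norm_zero }

lemma norm_zpow' {K : Type} [Field K] [NumberField K] (w : K) (n : ℤ) :
    Algebra.norm ℚ (w ^ n) = (Algebra.norm ℚ w) ^ n := map_zpow₀ (nrm K) w n

lemma norm_div' {K : Type} [Field K] [NumberField K] (w v : K) :
    Algebra.norm ℚ (w / v) = Algebra.norm ℚ w / Algebra.norm ℚ v := map_div₀ (nrm K) w v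

lemma Inst.y_ne {P κ B R : ℕ} {δ Y : ℝ} {K : Type}
    [Field K] [NumberField K] {x : K} {p : Fin P → ℕ} {y : Fin P → K} {s : K} {f : Fin P → ℤ}
    (h : Inst P κ B R δ Y K x p y s f) (j : Fin P) : y j ≠ 0 := by
  obtain ⟨h1, h2, h3, h4, h5, h6, -⟩ := h
  intro h0
  obtain ⟨a, ha, hn⟩ := h6 j
  rw [h0, Algebra.norm_zero, abs_zero] at hn
  have := (h4 j).pos
  have h7 : (0 : ℚ) < (p j : ℚ) ^ a := by positivity
  exact absurd hn h7.ne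

lemma Inst.s_ne {P κ B R : ℕ} {δ Y : ℝ} {K : Type}
    [Field K] [NumberField K] {x : K} {p : Fin P → ℕ} {y : Fin P → K} {s : K} {f : Fin P → ℤ}
    (h : Inst P κ B R δ Y K x p y s f) : s ≠ 0 := by
  obtain ⟨h1, h2, h3, h4, h5, h6, h7, h8, h9, h10, -⟩ := h
  rintro rfl
  rw [zero_mul] at h10
  exact h2 h10

lemma padic_abs (q : ℕ) (N : ℚ) : padicValRat q |N| = padicValRat q N := by
  rcases abs_choice N with h | h <;> rw [h]
  exact padicValRat.neg N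

lemma padic_prod {P : ℕ} (q : ℕ) [Fact q.Prime] (N : Fin P → ℚ) (hN : ∀ j, N j ≠ 0)
    (f : Fin P → ℤ) (S : Finset (Fin P)) :
    padicValRat q (∏ j ∈ S, N j ^ f j) = ∑ j ∈ S, f j * padicValRat q (N j) := by
  classical
  induction S using Finset.induction_on with
  | empty => simp
  | insert i S hi ih =>
    rw [Finset.prod_insert hi, Finset.sum_insert hi, padicValRat.mul (zpow_ne_zero _ (hN i))
      (Finset.prod_ne_zero_iff.2 fun j _ => zpow_ne_zero _ (hN j)), ih, padicValRat.zpow]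

/-- the valuation of the norm of `x` at a prime -/
lemma Inst.norm_val {P κ B R : ℕ} {δ Y : ℝ} {K : Type}
    [Field K] [NumberField K] {x : K} {p : Fin P → ℕ} {y : Fin P → K} {s : K} {f : Fin P → ℤ}
    (h : Inst P κ B R δ Y K x p y s f) (q : ℕ) [Fact q.Prime] :
    padicValRat q (Algebra.norm ℚ x) = padicValRat q (Algebra.norm ℚ s) +
      ∑ j, f j * padicValRat q (Algebra.norm ℚ (y j)) := by
  have hy := h.y_ne
  have hs := h.s_ne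
  obtain ⟨h1, h2, h3, h4, h5, h6, h7, h8, h9, h10, -⟩ := h
  have hNy : ∀ j, Algebra.norm ℚ (y j) ≠ 0 := fun j => Algebra.norm_ne_zero_iff.2 (hy j)
  rw [h10, map_mul, map_prod, padicValRat.mul (Algebra.norm_ne_zero_iff.2 hs)]
  · congr 1
    rw [← padic_prod q _ hNy f Finset.univ]
    congr 1
    exact Finset.prod_congr rfl fun j _ => norm_zpow' _ _
  · exact Finset.prod_ne_zero_iff.2 fun j _ => by
      rw [norm_zpow']; exact zpow_ne_zero _ (hNy j)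

lemma Inst.val_other {P κ B R : ℕ} {δ Y : ℝ} {K : Type}
    [Field K] [NumberField K] {x : K} {p : Fin P → ℕ} {y : Fin P → K} {s : K} {f : Fin P → ℤ}
    (h : Inst P κ B R δ Y K x p y s f) (q : ℕ) [Fact q.Prime] (j : Fin P) (hj : p j ≠ q) :
    padicValRat q (Algebra.norm ℚ (y j)) = 0 := by
  obtain ⟨h1, h2, h3, h4, h5, h6, -⟩ := h
  obtain ⟨a, ha, hn⟩ := h6 j
  have _ : Fact (p j).Prime := ⟨h4 j⟩
  rw [← padic_abs, hn, padicValRat.pow, padicValRat.of_nat, padicValNat_primes hj.symm]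
  simp

lemma Inst.val_self {P κ B R : ℕ} {δ Y : ℝ} {K : Type}
    [Field K] [NumberField K] {x : K} {p : Fin P → ℕ} {y : Fin P → K} {s : K} {f : Fin P → ℤ}
    (h : Inst P κ B R δ Y K x p y s f) (j : Fin P) :
    1 ≤ padicValRat (p j) (Algebra.norm ℚ (y j)) := by
  obtain ⟨h1, h2, h3, h4, h5, h6, -⟩ := h
  obtain ⟨a, ha, hn⟩ := h6 j
  have _ : Fact (p j).Prime := ⟨h4 j⟩
  rw [← padic_abs, hn, padicValRat.pow, padicValRat.self (h4 j).one_lt]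
  have h7 : (1 : ℤ) ≤ a := by exact_mod_cast ha
  simpa using h7

/-- two embedded number fields in a third one -/
lemma exists_comp {K₁ K₂ : Type} [Field K₁] [NumberField K₁] [Field K₂] [NumberField K₂]
    (τ₁ : K₁ →+* Qbar) (τ₂ : K₂ →+* Qbar) : ∃ (L : Type) (_ : Field L) (_ : NumberField L)
    (τ : L →+* Qbar) (j₁ : K₁ →+* L) (j₂ : K₂ →+* L), (∀ y, τ (j₁ y) = τ₁ y) ∧
      ∀ y, τ (j₂ y) = τ₂ y := by
  let E₁ := (RingHom.toRatAlgHom τ₁).fieldRange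
  let E₂ := (RingHom.toRatAlgHom τ₂).fieldRange
  have _ : FiniteDimensional ℚ E₁ :=
    (AlgEquiv.ofInjectiveField (RingHom.toRatAlgHom τ₁)).toLinearEquiv.finiteDimensional
  have _ : FiniteDimensional ℚ E₂ :=
    (AlgEquiv.ofInjectiveField (RingHom.toRatAlgHom τ₂)).toLinearEquiv.finiteDimensional
  let L : IntermediateField ℚ Qbar := E₁ ⊔ E₂
  have hfd : FiniteDimensional ℚ L := IntermediateField.finiteDimensional_sup E₁ E₂
  have hL : NumberField L := { to_charZero := inferInstance, to_finiteDimensional := hfd }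
  have h1 : ∀ y, τ₁ y ∈ L := fun y => (le_sup_left : E₁ ≤ L) ⟨y, rfl⟩
  have h2 : ∀ y, τ₂ y ∈ L := fun y => (le_sup_right : E₂ ≤ L) ⟨y, rfl⟩
  exact ⟨L, inferInstance, hL, algebraMap L Qbar, τ₁.codRestrict L h1, τ₂.codRestrict L h2,
    fun y => rfl, fun y => rfl⟩

lemma small_hh {φ : Qbar →+* ℂ} (hφ : ∀ (K : Type) [Field K] [NumberField K] (σ : K →+* ℂ),
    ∃ τ : K →+* Qbar, ∀ y, φ (τ y) = σ y) {κ : ℕ} {C : ℕ} {Y : ℝ} (hY : 1 ≤ Y) {c : ℂ}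
    (hc : SmallNumber κ (Y ^ C) c) : ∃ w : Qbar, w ≠ 0 ∧ φ w = c ∧ hh w ≤ C * Real.log Y := by
  obtain ⟨K, _, _, σ, y, h1, h2, h3, rfl⟩ := hc
  obtain ⟨τ, hτ⟩ := hφ K σ
  refine ⟨τ y, (map_ne_zero τ).2 h2, hτ y, ?_⟩
  have hf : (0 : ℝ) < finrank ℚ K := by exact_mod_cast (finrank_pos (R := ℚ) (M := K))
  rw [hh_emb, div_le_iff₀ hf, logHeight₁_eq_log_mulHeight₁]
  refine (Real.log_le_log (mulHeight₁_pos y) h3).trans ?_
  rw [← pow_mul, Real.log_pow]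
  push_cast
  nlinarith

lemma Inst.s_val {P κ B R : ℕ} {δ Y : ℝ} (hY : 1 ≤ Y) {K : Type}
    [Field K] [NumberField K] {x : K} {p : Fin P → ℕ} {y : Fin P → K} {s : K} {f : Fin P → ℤ}
    (h : Inst P κ B R δ Y K x p y s f) (q : ℕ) (hq : q.Prime) :
    |(padicValRat q (Algebra.norm ℚ s) : ℝ)| * Real.log q ≤ finrank ℚ K * (B * Real.log Y) := by
  have hs := h.s_ne
  obtain ⟨h1, h2, h3, h4, h5, h6, h7, h8, -⟩ := h
  refine (padic_le q hq _ (Algebra.norm_ne_zero_iff.2 hs)).trans ((logHeight₁_norm_le s).trans ?_)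
  rw [logHeight₁_eq_log_mulHeight₁]
  refine (Real.log_le_log (mulHeight₁_pos s) h8).trans ?_
  rw [← pow_mul, Real.log_pow]
  push_cast
  nlinarith

/-- **Two solutions in the same class.** -/
lemma pair {P κ B R C : ℕ} {δ Y : ℝ} (hY : 1 ≤ Y) {K₁ K₂ : Type} [Field K₁] [NumberField K₁]
    [Field K₂] [NumberField K₂] {x₁ : K₁} {x₂ : K₂} {p₁ p₂ : Fin P → ℕ} {y₁ : Fin P → K₁}
    {y₂ : Fin P → K₂} {s₁ : K₁} {s₂ : K₂} {f₁ f₂ : Fin P → ℤ}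
    (h₁ : Inst P κ B R δ Y K₁ x₁ p₁ y₁ s₁ f₁) (h₂ : Inst P κ B R δ Y K₂ x₂ p₂ y₂ s₂ f₂)
    (σ₁ : K₁ →+* ℂ) (σ₂ : K₂ →+* ℂ) {α c₁ c₁' c₂ c₂' : ℂ} (hc₁ : SmallNumber κ (Y ^ C) c₁)
    (hc₁' : SmallNumber κ (Y ^ C) c₁') (hc₂ : SmallNumber κ (Y ^ C) c₂)
    (hc₂' : SmallNumber κ (Y ^ C) c₂') (e₁ : σ₁ x₁ = c₁ / c₁' * α) (e₂ : σ₂ x₂ = c₂ / c₂' * α)
    (j : Fin P) (hj : ∀ k, p₂ k ≠ p₁ j) :
    |(f₁ j : ℝ)| * Real.log (p₁ j) ≤ κ * ((4 * C + 2 * B) * Real.log Y) := by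
  obtain ⟨φ, hφ⟩ := exists_phi
  obtain ⟨τ₁, hτ₁⟩ := hφ K₁ σ₁
  obtain ⟨τ₂, hτ₂⟩ := hφ K₂ σ₂
  obtain ⟨w₁, hw₁, rfl, hh₁⟩ := small_hh hφ hY hc₁
  obtain ⟨w₁', hw₁', rfl, hh₁'⟩ := small_hh hφ hY hc₁'
  obtain ⟨w₂, hw₂, rfl, hh₂⟩ := small_hh hφ hY hc₂
  obtain ⟨w₂', hw₂', rfl, hh₂'⟩ := small_hh hφ hY hc₂'
  have hx₁ : x₁ ≠ 0 := h₁.2.1
  have hx₂ : x₂ ≠ 0 := h₂.2.1
  have hlogY : 0 ≤ Real.log Y := Real.log_nonneg hY
  -- the quotient
  have hγ : τ₁ x₁ / τ₂ x₂ = w₁ * w₁'⁻¹ * (w₂' * w₂⁻¹) := by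
    have n1 : φ w₁' ≠ 0 := (map_ne_zero φ).2 hw₁'
    have n2 : φ w₂' ≠ 0 := (map_ne_zero φ).2 hw₂'
    have hx2' : τ₂ x₂ ≠ 0 := (map_ne_zero τ₂).2 hx₂
    rw [div_eq_iff hx2']
    apply φ.injective
    rw [hτ₁, e₁]
    simp only [map_mul, map_inv₀, hτ₂, e₂]
    have n3 : φ w₂ ≠ 0 := (map_ne_zero φ).2 hw₂
    field_simp
  have hγh : hh (τ₁ x₁ / τ₂ x₂) ≤ 4 * C * Real.log Y := by
    rw [hγ]
    have g1 := hh_mul (w₁ * w₁'⁻¹) (w₂' * w₂⁻¹)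
    have g2 := hh_mul w₁ w₁'⁻¹
    have g3 := hh_mul w₂' w₂⁻¹
    rw [hh_inv] at g2 g3
    linarith
  obtain ⟨L, _, _, τ, j₁, j₂, hj₁, hj₂⟩ := exists_comp τ₁ τ₂
  obtain ⟨m₁, hm₁, hn₁⟩ := norm_pow j₁
  obtain ⟨m₂, hm₂, hn₂⟩ := norm_pow j₂
  have hfL : (0 : ℝ) < finrank ℚ L := by exact_mod_cast (finrank_pos (R := ℚ) (M := L))
  have hlogL : logHeight₁ (j₁ x₁ / j₂ x₂) ≤ finrank ℚ L * (4 * C * Real.log Y) := by
    have g1 := hh_emb τ (j₁ x₁ / j₂ x₂)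
    rw [map_div₀, hj₁, hj₂] at g1
    rw [g1, div_le_iff₀ hfL] at hγh
    linarith
  have hp : (p₁ j).Prime := h₁.2.2.2.1 j
  have _ : Fact (p₁ j).Prime := ⟨hp⟩
  have hN₁ : Algebra.norm ℚ x₁ ≠ 0 := Algebra.norm_ne_zero_iff.2 hx₁
  have hN₂ : Algebra.norm ℚ x₂ ≠ 0 := Algebra.norm_ne_zero_iff.2 hx₂
  have hval : padicValRat (p₁ j) (Algebra.norm ℚ (j₁ x₁ / j₂ x₂)) =
      m₁ * padicValRat (p₁ j) (Algebra.norm ℚ x₁) - m₂ * padicValRat (p₁ j) (Algebra.norm ℚ x₂) := by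
    rw [norm_div', hn₁, hn₂, padicValRat.div (pow_ne_zero _ hN₁) (pow_ne_zero _ hN₂),
      padicValRat.pow, padicValRat.pow]
  have hv₂ : padicValRat (p₁ j) (Algebra.norm ℚ x₂) = padicValRat (p₁ j) (Algebra.norm ℚ s₂) := by
    rw [h₂.norm_val, Finset.sum_eq_zero, add_zero]
    intro k _
    rw [h₂.val_other _ k (hj k), mul_zero]
  have hv₁ : padicValRat (p₁ j) (Algebra.norm ℚ x₁) = padicValRat (p₁ j) (Algebra.norm ℚ s₁) +
      f₁ j * padicValRat (p₁ j) (Algebra.norm ℚ (y₁ j)) := by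
    rw [h₁.norm_val]
    congr 1
    refine Finset.sum_eq_single j (fun k _ hk => ?_) (fun h => absurd (Finset.mem_univ _) h)
    rw [h₁.val_other _ k (fun h => hk (h₁.2.2.2.2.1 h)), mul_zero]
  have hlp : 0 ≤ Real.log (p₁ j) := Real.log_natCast_nonneg _
  have hx12 : j₁ x₁ / j₂ x₂ ≠ 0 :=
    div_ne_zero ((map_ne_zero j₁).2 hx₁) ((map_ne_zero j₂).2 hx₂)
  have k1 : |(padicValRat (p₁ j) (Algebra.norm ℚ (j₁ x₁ / j₂ x₂)) : ℝ)| * Real.log (p₁ j) ≤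
      finrank ℚ L * (4 * C * Real.log Y) :=
    (padic_le _ hp _ (Algebra.norm_ne_zero_iff.2 hx12)).trans
      ((logHeight₁_norm_le _).trans hlogL)
  have k2 := h₁.s_val hY (p₁ j) hp
  have k3 := h₂.s_val hY (p₁ j) hp
  have k4 := h₁.val_self j
  obtain ⟨V, hV⟩ : ∃ V : ℝ, V = (padicValRat (p₁ j) (Algebra.norm ℚ (j₁ x₁ / j₂ x₂)) : ℝ) := ⟨_, rfl⟩
  obtain ⟨S₁, hS₁⟩ : ∃ V : ℝ, V = (padicValRat (p₁ j) (Algebra.norm ℚ s₁) : ℝ) := ⟨_, rfl⟩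
  obtain ⟨S₂, hS₂⟩ : ∃ V : ℝ, V = (padicValRat (p₁ j) (Algebra.norm ℚ s₂) : ℝ) := ⟨_, rfl⟩
  obtain ⟨a, ha⟩ : ∃ V : ℝ, V = (padicValRat (p₁ j) (Algebra.norm ℚ (y₁ j)) : ℝ) := ⟨_, rfl⟩
  have ha1 : (1 : ℝ) ≤ a := by rw [ha]; exact_mod_cast k4
  rw [← hV] at k1
  rw [← hS₁] at k2
  rw [← hS₂] at k3
  have hVeq : V = m₁ * (S₁ + f₁ j * a) - m₂ * S₂ := by
    rw [hV, hval, hv₁, hv₂, hS₁, hS₂, ha]
    push_cast
    ring
  have hm₁' : (m₁ : ℝ) * finrank ℚ K₁ = finrank ℚ L := by exact_mod_cast hm₁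
  have hm₂' : (m₂ : ℝ) * finrank ℚ K₂ = finrank ℚ L := by exact_mod_cast hm₂
  have hm₁0 : (0 : ℝ) < m₁ := by
    rcases Nat.eq_zero_or_pos m₁ with h | h
    · rw [h, Nat.cast_zero, zero_mul] at hm₁'
      exact absurd hm₁' hfL.ne
    · exact_mod_cast h
  -- the main inequality
  have main : m₁ * (|(f₁ j : ℝ)| * Real.log (p₁ j)) ≤
      m₁ * (finrank ℚ K₁ * ((4 * C + 2 * B) * Real.log Y)) := by
    have e1 : (m₁ : ℝ) * (f₁ j * a) = V - m₁ * S₁ + m₂ * S₂ := by rw [hVeq]; ring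
    have e2 : (m₁ : ℝ) * (|(f₁ j : ℝ)| * a) ≤ |V| + m₁ * |S₁| + m₂ * |S₂| := by
      have e3 : (m₁ : ℝ) * (|(f₁ j : ℝ)| * a) = |(m₁ : ℝ) * (f₁ j * a)| := by
        rw [abs_mul, abs_mul, abs_of_nonneg hm₁0.le, abs_of_nonneg (by linarith : (0 : ℝ) ≤ a)]
      rw [e3, e1]
      refine (abs_add_le _ _).trans ?_
      have e4 : |(m₂ : ℝ) * S₂| = m₂ * |S₂| := by rw [abs_mul, Nat.abs_cast]
      have e5 : |V - m₁ * S₁| ≤ |V| + m₁ * |S₁| := by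
        refine (abs_sub _ _).trans ?_
        rw [abs_mul, Nat.abs_cast]
      linarith
    have e6 : (m₁ : ℝ) * (|(f₁ j : ℝ)| * Real.log (p₁ j)) ≤
        (m₁ : ℝ) * (|(f₁ j : ℝ)| * a) * Real.log (p₁ j) := by
      have e7 : |(f₁ j : ℝ)| ≤ |(f₁ j : ℝ)| * a := le_mul_of_one_le_right (abs_nonneg _) ha1
      have e8 := mul_le_mul_of_nonneg_right e7 hlp
      have e9 := mul_le_mul_of_nonneg_left e8 hm₁0.le
      linarith
    have e10 : (m₁ : ℝ) * (|(f₁ j : ℝ)| * a) * Real.log (p₁ j) ≤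
        |V| * Real.log (p₁ j) + m₁ * (|S₁| * Real.log (p₁ j)) +
          m₂ * (|S₂| * Real.log (p₁ j)) := by
      have := mul_le_mul_of_nonneg_right e2 hlp
      linarith
    have e11 := mul_le_mul_of_nonneg_left k2 hm₁0.le
    have e12 := mul_le_mul_of_nonneg_left k3 (Nat.cast_nonneg (α := ℝ) m₂)
    have e13 : (m₂ : ℝ) * (finrank ℚ K₂ * (B * Real.log Y)) =
        m₁ * (finrank ℚ K₁ * (B * Real.log Y)) := by
      calc (m₂ : ℝ) * (finrank ℚ K₂ * (B * Real.log Y)) =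
            ((m₂ : ℝ) * finrank ℚ K₂) * (B * Real.log Y) := by ring
        _ = ((m₁ : ℝ) * finrank ℚ K₁) * (B * Real.log Y) := by rw [hm₁', hm₂']
        _ = _ := by ring
    have e14 : (finrank ℚ L : ℝ) * (4 * C * Real.log Y) =
        m₁ * (finrank ℚ K₁ * (4 * C * Real.log Y)) := by
      rw [← hm₁']
      ring
    have e15 : m₁ * (finrank ℚ K₁ * ((4 * C + 2 * B) * Real.log Y)) =
        m₁ * (finrank ℚ K₁ * (4 * C * Real.log Y)) + m₁ * (finrank ℚ K₁ * (B * Real.log Y)) +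
          m₁ * (finrank ℚ K₁ * (B * Real.log Y)) := by ring
    rw [e15]
    linarith
  have main' := le_of_mul_le_mul_left main hm₁0
  refine main'.trans ?_
  have hκ : (finrank ℚ K₁ : ℝ) ≤ κ := by exact_mod_cast h₁.1
  exact mul_le_mul_of_nonneg_right hκ (by positivity)

end Pool.Agent.Seat74.TN
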