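import Mathlib
import Pool.Agent.Seat74.TN.Cls
import Pool.Agent.Seat74.TN.Thin

/-!
The primes with large exponents in solutions of abc equations over number fields form a thin set.
-/

set_option autoImplicit false

namespace Pool.Agent.Seat74.TN

open NumberField Height Module
open Pool.Agent.Results.MP_f5a5f7_nt.FewClassesAllFields (SmallNumber Abc)

/-- the primes `q` which are one of the primes `p j` of a solution with bounds in terms of `q ^ A`,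
and have an exponent larger than `M` there -/
def BadP (P κ B A R M : ℕ) (δ : ℝ) : Set ℕ :=
  {q | q.Prime ∧ ∃ (K : Type) (_ : Field K) (_ : NumberField K) (x : K) (p : Fin P → ℕ)
    (y : Fin P → K) (s : K) (f : Fin P → ℤ) (j : Fin P),
    Inst P κ B R δ ((q : ℝ) ^ A) K x p y s f ∧ p j = q ∧ (M : ℝ) < |(f j : ℝ)|}

/-- a solution with bounds in terms of `Y` in the class of `α`, with the prime `q` and an exponent
larger than `M` of it -/
def Lab (P κ B R M C : ℕ) (δ Y : ℝ) (q : ℕ) (α : ℂ) : Prop :=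
  ∃ (K : Type) (_ : Field K) (_ : NumberField K) (x : K) (p : Fin P → ℕ)
    (y : Fin P → K) (s : K) (f : Fin P → ℤ) (j : Fin P) (σ : K →+* ℂ) (c c' : ℂ),
    Inst P κ B R δ Y K x p y s f ∧ p j = q ∧ (M : ℝ) < |(f j : ℝ)| ∧
    SmallNumber κ (Y ^ C) c ∧ SmallNumber κ (Y ^ C) c' ∧ σ x = c / c' * α

lemma Inst.abc {P κ B R : ℕ} {δ : ℝ} {Y : ℕ} {K : Type} [Field K] [NumberField K] {x : K}
    {p : Fin P → ℕ} {y : Fin P → K} {s : K} {f : Fin P → ℤ}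
    (h : Inst P κ B R δ Y K x p y s f) (σ : K →+* ℂ) : Abc P κ B R δ Y (σ x) := by
  have hy := h.y_ne
  obtain ⟨h1, h2, h3, h4, h5, h6, h7, h8, h9, h10, s', z, e, r, h11, h12, h13, h14, h15⟩ := h
  exact ⟨K, inferInstance, inferInstance, σ, y, x, s, s', z, f, e, r, h1, h11, h12, h9, h13,
    fun j => ⟨hy j, h7 j⟩, h8, h14, h2, h3, rfl, h10, h15⟩

/-- the primes in one class -/
lemma lab_class {P κ B R M C : ℕ} {δ Y T : ℝ} (hY : 1 ≤ Y)
    (hM : ∀ q : ℕ, T < q → κ * ((4 * C + 2 * B) * Real.log Y) ≤ M * Real.log q) (hT : 1 ≤ T)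
    (α : ℂ) : {q : ℕ | T < q ∧ Lab P κ B R M C δ Y q α}.Finite ∧
      {q : ℕ | T < q ∧ Lab P κ B R M C δ Y q α}.ncard ≤ P := by
  by_cases hne : ∃ q₀ : ℕ, T < q₀ ∧ Lab P κ B R M C δ Y q₀ α
  · obtain ⟨q₀, -, K₂, _, _, x₂, p₂, y₂, s₂, f₂, j₂, σ₂, c₂, c₂', h₂, -, -, g₂, g₂', e₂⟩ := hne
    have hsub : {q : ℕ | T < q ∧ Lab P κ B R M C δ Y q α} ⊆ Set.range p₂ := by
      rintro q ⟨hTq, K₁, _, _, x₁, p₁, y₁, s₁, f₁, j, σ₁, c₁, c₁', h₁, hpj, hMf, g₁, g₁', e₁⟩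
      by_contra hq
      have hj : ∀ k, p₂ k ≠ p₁ j := fun k hk => hq ⟨k, hk.trans hpj⟩
      have h3 := pair hY h₁ h₂ σ₁ σ₂ g₁ g₁' g₂ g₂' e₁ e₂ j hj
      rw [hpj] at h3
      have h4 := hM q hTq
      have h5 : 0 < Real.log q := Real.log_pos (by linarith)
      have h6 : (M : ℝ) * Real.log q < |(f₁ j : ℝ)| * Real.log q :=
        mul_lt_mul_of_pos_right hMf h5
      linarith
    have hfin := (Set.finite_range p₂).subset hsub
    refine ⟨hfin, (Set.ncard_le_ncard hsub (Set.finite_range p₂)).trans ?_⟩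
    rw [← Set.image_univ]
    refine (Set.ncard_image_le Set.finite_univ).trans ?_
    rw [Set.ncard_univ, Nat.card_eq_fintype_card, Fintype.card_fin]
  · have h0 : {q : ℕ | T < q ∧ Lab P κ B R M C δ Y q α} = ∅ := by
      rw [Set.eq_empty_iff_forall_notMem]
      exact fun q hq => hne ⟨q, hq⟩
    rw [h0]
    simp

lemma count_badP (P κ B A : ℕ) (hκ : 1 ≤ κ) (ε : ℝ) (hε : 0 < ε) :
    ∃ (R M : ℕ) (δ : ℝ), 0 < δ ∧ ∃ C : ℝ, ∀ X : ℕ, 1 ≤ X →
      (({q ∈ BadP P κ B A R M δ | 1 ≤ q ∧ q ≤ X}.ncard : ℕ) : ℝ) ≤ C * (X : ℝ) ^ ε := by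
  classical
  obtain ⟨R, C, δ, hδ, H⟩ := (Pool.Agent.Results.MP_f5a5f7_nt.FewClassesAllFields.result P κ B
    (ε / (A + 1)) hκ (by positivity)).1
  obtain ⟨M, hM⟩ := exists_nat_ge ((κ : ℝ) * (4 * C + 2 * B) * (A / ε))
  refine ⟨R, M, δ, hδ, 1 + P, fun X hX => ?_⟩
  have hX1 : (1 : ℝ) ≤ (X : ℝ) := by exact_mod_cast hX
  obtain ⟨Y, hY⟩ : ∃ Y : ℕ, Y = X ^ A := ⟨_, rfl⟩
  have hY1 : 1 ≤ Y := by rw [hY]; exact Nat.one_le_pow _ _ hX
  have hYR : (Y : ℝ) = (X : ℝ) ^ A := by rw [hY]; push_cast; rfl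
  have hY1' : (1 : ℝ) ≤ (Y : ℝ) := by exact_mod_cast hY1
  obtain ⟨T, hT⟩ : ∃ T : ℝ, T = (X : ℝ) ^ ε := ⟨_, rfl⟩
  have hT1 : 1 ≤ T := by rw [hT]; exact Real.one_le_rpow hX1 hε.le
  obtain ⟨𝒜, hcard, hcls⟩ := H Y hY1
  have hMT : ∀ q : ℕ, T < q → κ * ((4 * C + 2 * B) * Real.log Y) ≤ M * Real.log q := by
    intro q hq
    have h1 : ε * Real.log X ≤ Real.log q := by
      rw [← Real.log_rpow (by linarith), ← hT]
      exact Real.log_le_log (by linarith) hq.le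
    have h2 : 0 ≤ Real.log q := Real.log_natCast_nonneg q
    have h3 : Real.log Y = A * Real.log X := by rw [hYR, Real.log_pow]
    have h4 : Real.log X ≤ Real.log q / ε := by
      rw [le_div_iff₀ hε]; linarith
    calc (κ : ℝ) * ((4 * C + 2 * B) * Real.log Y)
        = κ * (4 * C + 2 * B) * A * Real.log X := by rw [h3]; ring
      _ ≤ κ * (4 * C + 2 * B) * A * (Real.log q / ε) :=
          mul_le_mul_of_nonneg_left h4 (by positivity)
      _ = (κ : ℝ) * (4 * C + 2 * B) * (A / ε) * Real.log q := by ring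
      _ ≤ M * Real.log q := mul_le_mul_of_nonneg_right hM h2
  have hlab : ∀ q ∈ BadP P κ B A R M δ, 1 ≤ q → q ≤ X → ∃ α ∈ 𝒜, Lab P κ B R M C δ Y q α := by
    rintro q ⟨hq, K, _, _, x, p, y, s, f, j, h, hpj, hMf⟩ hq1 hqX
    have hq1' : (1 : ℝ) ≤ (q : ℝ) := by exact_mod_cast hq1
    have hqA : (1 : ℝ) ≤ (q : ℝ) ^ A := one_le_pow₀ hq1'
    have hqY : (q : ℝ) ^ A ≤ (Y : ℝ) := by
      rw [hYR]
      exact pow_le_pow_left₀ (by positivity) (by exact_mod_cast hqX) A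
    have h' := h.mono hδ.le hqA hqY
    let σ : K →ₐ[ℚ] ℂ := IsAlgClosed.lift
    obtain ⟨α, hα, c, c', g1, g2, g3⟩ := hcls _ (h'.abc (σ : K →+* ℂ))
    exact ⟨α, hα, K, inferInstance, inferInstance, x, p, y, s, f, j, (σ : K →+* ℂ), c, c', h', hpj,
      hMf, g1, g2, g3⟩
  have hsub : {q ∈ BadP P κ B A R M δ | 1 ≤ q ∧ q ≤ X} ⊆
      (Finset.Icc 1 ⌊T⌋₊ : Set ℕ) ∪ ⋃ α ∈ 𝒜, {q : ℕ | T < q ∧ Lab P κ B R M C δ Y q α} := by
    rintro q ⟨hq, hq1, hqX⟩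
    by_cases hqT : (q : ℝ) ≤ T
    · left
      rw [Finset.mem_coe, Finset.mem_Icc]
      exact ⟨hq1, Nat.le_floor hqT⟩
    · right
      obtain ⟨α, hα, hL⟩ := hlab q hq hq1 hqX
      simp only [Set.mem_iUnion]
      exact ⟨α, hα, not_le.1 hqT, hL⟩
  have hcl := fun α => lab_class (P := P) (κ := κ) (B := B) (R := R) (M := M) (C := C) (δ := δ)
    hY1' hMT hT1 α
  have h1 : {q ∈ BadP P κ B A R M δ | 1 ≤ q ∧ q ≤ X}.ncard ≤ ⌊T⌋₊ + 𝒜.card * P := by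
    refine (Set.ncard_le_ncard hsub ?_).trans ((Set.ncard_union_le _ _).trans ?_)
    · exact (Finset.finite_toSet _).union (Set.Finite.biUnion (Finset.finite_toSet _)
        (fun α _ => (hcl α).1))
    · refine Nat.add_le_add ?_ ((Finset.set_ncard_biUnion_le _ _).trans ?_)
      · rw [Set.ncard_coe_finset, Nat.card_Icc]
        simp
      · exact (Finset.sum_le_sum fun α _ => (hcl α).2).trans (by
          rw [Finset.sum_const, smul_eq_mul])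
  have h2 : (({q ∈ BadP P κ B A R M δ | 1 ≤ q ∧ q ≤ X}.ncard : ℕ) : ℝ) ≤
      ((⌊T⌋₊ : ℕ) : ℝ) + (𝒜.card : ℝ) * P := by exact_mod_cast h1
  refine h2.trans ?_
  have h3 : ((⌊T⌋₊ : ℕ) : ℝ) ≤ (X : ℝ) ^ ε := by
    rw [← hT]; exact Nat.floor_le (by linarith)
  have h4 : (𝒜.card : ℝ) ≤ (X : ℝ) ^ ε := by
    refine hcard.trans ?_
    rw [hYR, ← Real.rpow_natCast, ← Real.rpow_mul (by positivity)]
    refine Real.rpow_le_rpow_of_exponent_le hX1 ?_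
    have h5 : (0 : ℝ) < (A : ℝ) + 1 := by positivity
    rw [mul_div_assoc', div_le_iff₀ h5]
    nlinarith
  have h5 := mul_le_mul_of_nonneg_right h4 (Nat.cast_nonneg (α := ℝ) P)
  linarith

end Pool.Agent.Seat74.TN
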