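import Mathlib
import Pool.Agent.Results.MP_ef6a16_nt.FewPointsAllFields
import Pool.Agent.Seat74.TN.Cls
import Pool.Agent.Seat74.TN.Thin

/-!
Generalized Fermat equations over number fields: the primes with different exponents in the variables
form a thin set.
-/

set_option autoImplicit false

namespace Pool.Agent.Seat74.TN

open NumberField Height Module
open Pool.Agent.Results.MP_ef6a16_nt.FewPointsAllFields (Sol)
open Pool.Agent.Helper259.AbsHt (Qbar)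

/-- Over the number field `K` of degree at most `κ` there is a solution of
`∑ i, s i * x i ^ d = s₀ * c * z ^ r` without vanishing partial sums on the left, where
`x i = ∏ j, y j ^ f i j` and `c = ∏ j, y j ^ e j`, the norm of `y j` is up to the sign a positive
power of the prime `p j`, these primes are different, the absolute height of `y j` is at most `Y`, that
of `s i`, `s₀` at most `Y ^ B`, the exponents `f i j`, `e j` are at most `Y ^ δ`, and `d`, `r` are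
between `R` and `Y ^ δ`. -/
def FInst (n P κ B R : ℕ) (δ Y : ℝ) (K : Type) [Field K] [NumberField K] (p : Fin P → ℕ)
    (y : Fin P → K) (f : Fin n → Fin P → ℤ) : Prop :=
  finrank ℚ K ≤ κ ∧ (∀ j, (p j).Prime) ∧ Function.Injective p ∧
  (∀ j, ∃ a : ℕ, 0 < a ∧ |Algebra.norm ℚ (y j)| = (p j : ℚ) ^ a) ∧
  (∀ j, mulHeight₁ (y j) ≤ Y ^ finrank ℚ K) ∧ (∀ i j, |(f i j : ℝ)| ≤ Y ^ δ) ∧
  ∃ (s : Fin n → K) (s₀ z : K) (e : Fin P → ℤ) (d r : ℕ), R ≤ d ∧ (d : ℝ) ≤ Y ^ δ ∧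
    R ≤ r ∧ (r : ℝ) ≤ Y ^ δ ∧ (∀ j, |(e j : ℝ)| ≤ Y ^ δ) ∧
    (∀ i, s i ≠ 0 ∧ mulHeight₁ (s i) ≤ (Y ^ B) ^ finrank ℚ K) ∧
    s₀ ≠ 0 ∧ mulHeight₁ s₀ ≤ (Y ^ B) ^ finrank ℚ K ∧
    (∀ J : Finset (Fin n), J.Nonempty → ∑ i ∈ J, s i * (∏ j, y j ^ f i j) ^ d ≠ 0) ∧
    ∑ i, s i * (∏ j, y j ^ f i j) ^ d = s₀ * (∏ j, y j ^ e j) * z ^ r

lemma FInst.mono {n P κ B R : ℕ} {δ Y Y' : ℝ} (hδ : 0 ≤ δ) (hY : 1 ≤ Y) (hYY : Y ≤ Y') {K : Type}
    [Field K] [NumberField K] {p : Fin P → ℕ} {y : Fin P → K} {f : Fin n → Fin P → ℤ}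
    (h : FInst n P κ B R δ Y K p y f) : FInst n P κ B R δ Y' K p y f := by
  obtain ⟨h1, h2, h3, h4, h5, h6, s, s₀, z, e, d, r, h7, h8, h9, h10, h11, h12, h13, h14, h15,
    h16⟩ := h
  have hd : Y ^ δ ≤ Y' ^ δ := Real.rpow_le_rpow (by linarith) hYY hδ
  have hk : ∀ k : ℕ, Y ^ k ≤ Y' ^ k := fun k => pow_le_pow_left₀ (by linarith) hYY k
  have hkB : (Y ^ B) ^ finrank ℚ K ≤ (Y' ^ B) ^ finrank ℚ K :=
    pow_le_pow_left₀ (by positivity) (hk _) _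
  exact ⟨h1, h2, h3, h4, fun j => (h5 j).trans (hk _), fun i j => (h6 i j).trans hd, s, s₀, z, e, d,
    r, h7, h8.trans hd, h9, h10.trans hd, fun j => (h11 j).trans hd,
    fun i => ⟨(h12 i).1, (h12 i).2.trans hkB⟩, h13, h14.trans hkB, h15, h16⟩

section
variable {n P κ B R : ℕ} {δ Y : ℝ} {K : Type} [Field K] [NumberField K] {p : Fin P → ℕ}
  {y : Fin P → K} {f : Fin n → Fin P → ℤ}

lemma FInst.y_ne (h : FInst n P κ B R δ Y K p y f) (j : Fin P) : y j ≠ 0 := by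
  obtain ⟨h1, h2, h3, h4, -⟩ := h
  intro h0
  obtain ⟨a, ha, hn⟩ := h4 j
  rw [h0, Algebra.norm_zero, abs_zero] at hn
  have := (h2 j).pos
  have h7 : (0 : ℚ) < (p j : ℚ) ^ a := by positivity
  exact absurd hn h7.ne

lemma FInst.val_other (h : FInst n P κ B R δ Y K p y f) (q : ℕ) [Fact q.Prime] (j : Fin P)
    (hj : p j ≠ q) : padicValRat q (Algebra.norm ℚ (y j)) = 0 := by
  obtain ⟨h1, h2, h3, h4, -⟩ := h
  obtain ⟨a, ha, hn⟩ := h4 j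
  have _ : Fact (p j).Prime := ⟨h2 j⟩
  rw [← padic_abs, hn, padicValRat.pow, padicValRat.of_nat, padicValNat_primes hj.symm]
  simp

lemma FInst.val_self (h : FInst n P κ B R δ Y K p y f) (j : Fin P) :
    1 ≤ padicValRat (p j) (Algebra.norm ℚ (y j)) := by
  obtain ⟨h1, h2, h3, h4, -⟩ := h
  obtain ⟨a, ha, hn⟩ := h4 j
  have _ : Fact (p j).Prime := ⟨h2 j⟩
  rw [← padic_abs, hn, padicValRat.pow, padicValRat.self (h2 j).one_lt]
  have h7 : (1 : ℤ) ≤ a := by exact_mod_cast ha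
  simpa using h7

/-- the valuation of the norm of a product of powers -/
lemma FInst.norm_val (h : FInst n P κ B R δ Y K p y f) (q : ℕ) [Fact q.Prime] (g : Fin P → ℤ) :
    padicValRat q (Algebra.norm ℚ (∏ j, y j ^ g j)) =
      ∑ j, g j * padicValRat q (Algebra.norm ℚ (y j)) := by
  have hy := h.y_ne
  have hNy : ∀ j, Algebra.norm ℚ (y j) ≠ 0 := fun j => Algebra.norm_ne_zero_iff.2 (hy j)
  rw [map_prod, ← padic_prod q _ hNy g Finset.univ]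
  congr 1
  exact Finset.prod_congr rfl fun j _ => norm_zpow' _ _

omit [NumberField K] in
lemma ratio_eq (hy : ∀ j, y j ≠ 0) (i i' : Fin n) :
    (∏ j, y j ^ f i j) / (∏ j, y j ^ f i' j) = ∏ j, y j ^ (f i j - f i' j) := by
  rw [← Finset.prod_div_distrib]
  exact Finset.prod_congr rfl fun j _ => (zpow_sub₀ (hy j) _ _).symm

end

lemma FInst.sol {n P κ B R : ℕ} {δ : ℝ} {Y : ℕ} {K : Type} [Field K] [NumberField K]
    {p : Fin P → ℕ} {y : Fin P → K} {f : Fin n → Fin P → ℤ} (h : FInst n P κ B R δ Y K p y f)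
    (σ : K →+* ℂ) : Sol P κ B R δ Y (fun _ : Fin n => (1 : ℤ)) 1
      (fun i => σ (∏ j, y j ^ f i j)) := by
  have hy := h.y_ne
  obtain ⟨h1, h2, h3, h4, h5, h6, s, s₀, z, e, d, r, h7, h8, h9, h10, h11, h12, h13, h14, h15,
    h16⟩ := h
  refine ⟨K, inferInstance, inferInstance, σ, y, s, s₀, z, f, e, d, r, h1, h7, h8, h9, h10, h6, h11,
    fun j => ⟨hy j, h5 j⟩, h12, h13, h14, fun i => rfl, ?_, ?_⟩
  · simpa using h15
  · simpa using h16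

/-- **Two solutions with proportional variables.** -/
lemma fpair {n P κ B R : ℕ} {δ Y : ℝ} {K₁ K₂ : Type} [Field K₁] [NumberField K₁]
    [Field K₂] [NumberField K₂] {p₁ p₂ : Fin P → ℕ} {y₁ : Fin P → K₁} {y₂ : Fin P → K₂}
    {f₁ f₂ : Fin n → Fin P → ℤ} (h₁ : FInst n P κ B R δ Y K₁ p₁ y₁ f₁)
    (h₂ : FInst n P κ B R δ Y K₂ p₂ y₂ f₂) (σ₁ : K₁ →+* ℂ) (σ₂ : K₂ →+* ℂ)
    (hspan : Submodule.span ℂ {fun i => σ₁ (∏ j, y₁ j ^ f₁ i j)} =
      Submodule.span ℂ {fun i => σ₂ (∏ j, y₂ j ^ f₂ i j)})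
    (j : Fin P) (hj : ∀ k, p₂ k ≠ p₁ j) (i i' : Fin n) : f₁ i j = f₁ i' j := by
  obtain ⟨φ, hφ⟩ := exists_phi
  obtain ⟨τ₁, hτ₁⟩ := hφ K₁ σ₁
  obtain ⟨τ₂, hτ₂⟩ := hφ K₂ σ₂
  -- the ratios are equal
  have hne₁ : ∀ i, ∏ j, y₁ j ^ f₁ i j ≠ 0 := fun i =>
    Finset.prod_ne_zero_iff.2 fun j _ => zpow_ne_zero _ (h₁.y_ne j)
  have hne₂ : ∀ i, ∏ j, y₂ j ^ f₂ i j ≠ 0 := fun i =>
    Finset.prod_ne_zero_iff.2 fun j _ => zpow_ne_zero _ (h₂.y_ne j)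
  have hmem : (fun i => σ₁ (∏ j, y₁ j ^ f₁ i j)) ∈
      Submodule.span ℂ {fun i => σ₂ (∏ j, y₂ j ^ f₂ i j)} := by
    rw [← hspan]; exact Submodule.mem_span_singleton_self _
  obtain ⟨c, hc⟩ := Submodule.mem_span_singleton.1 hmem
  have hci : ∀ i, c * σ₂ (∏ j, y₂ j ^ f₂ i j) = σ₁ (∏ j, y₁ j ^ f₁ i j) := fun i =>
    congrFun hc i
  have hγ : τ₁ ((∏ j, y₁ j ^ f₁ i j) / (∏ j, y₁ j ^ f₁ i' j)) =
      τ₂ ((∏ j, y₂ j ^ f₂ i j) / (∏ j, y₂ j ^ f₂ i' j)) := by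
    apply φ.injective
    rw [hτ₁, hτ₂, map_div₀, map_div₀, ← hci i, ← hci i']
    have n1 : σ₂ (∏ j, y₂ j ^ f₂ i' j) ≠ 0 := (map_ne_zero σ₂).2 (hne₂ i')
    have n2 : c ≠ 0 := by
      rintro rfl
      have := hci i
      rw [zero_mul] at this
      exact (map_ne_zero σ₁).2 (hne₁ i) this.symm
    field_simp
  rw [ratio_eq h₁.y_ne, ratio_eq h₂.y_ne] at hγ
  obtain ⟨L, _, _, τ, j₁, j₂, hj₁, hj₂⟩ := exists_comp τ₁ τ₂
  obtain ⟨m₁, hm₁, hn₁⟩ := norm_pow j₁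
  obtain ⟨m₂, hm₂, hn₂⟩ := norm_pow j₂
  have hp : (p₁ j).Prime := h₁.2.1 j
  have _ : Fact (p₁ j).Prime := ⟨hp⟩
  have hjj : j₁ (∏ j, y₁ j ^ (f₁ i j - f₁ i' j)) = j₂ (∏ j, y₂ j ^ (f₂ i j - f₂ i' j)) := by
    apply τ.injective
    rw [hj₁, hj₂, hγ]
  have hN := congrArg (fun w => padicValRat (p₁ j) (Algebra.norm ℚ w)) hjj
  simp only [hn₁, hn₂, padicValRat.pow] at hN
  rw [h₁.norm_val, h₂.norm_val] at hN
  have hz2 : ∑ k, (f₂ i k - f₂ i' k) * padicValRat (p₁ j) (Algebra.norm ℚ (y₂ k)) = 0 :=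
    Finset.sum_eq_zero fun k _ => by rw [h₂.val_other _ k (hj k), mul_zero]
  have hz1 : ∑ k, (f₁ i k - f₁ i' k) * padicValRat (p₁ j) (Algebra.norm ℚ (y₁ k)) =
      (f₁ i j - f₁ i' j) * padicValRat (p₁ j) (Algebra.norm ℚ (y₁ j)) := by
    refine Finset.sum_eq_single j (fun k _ hk => ?_) (fun h => absurd (Finset.mem_univ _) h)
    rw [h₁.val_other _ k (fun h => hk (h₁.2.2.1 h)), mul_zero]
  rw [hz1, hz2, mul_zero] at hN
  have hm₁0 : (m₁ : ℤ) ≠ 0 := by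
    intro h0
    have h1 : m₁ = 0 := by exact_mod_cast h0
    rw [h1, zero_mul] at hm₁
    exact (finrank_pos (R := ℚ) (M := L)).ne hm₁
  have hv := h₁.val_self j
  have hv0 : padicValRat (p₁ j) (Algebra.norm ℚ (y₁ j)) ≠ 0 := by omega
  have h3 := (mul_eq_zero.1 hN).resolve_left hm₁0
  have h4 := (mul_eq_zero.1 h3).resolve_right hv0
  linarith

/-- the primes `q` which are one of the primes `p j` of a solution with bounds in terms of `q ^ A`,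
and have different exponents in two of the variables -/
def BadF (n P κ B A R : ℕ) (δ : ℝ) : Set ℕ :=
  {q | q.Prime ∧ ∃ (K : Type) (_ : Field K) (_ : NumberField K) (p : Fin P → ℕ)
    (y : Fin P → K) (f : Fin n → Fin P → ℤ) (j : Fin P) (i i' : Fin n),
    FInst n P κ B R δ ((q : ℝ) ^ A) K p y f ∧ p j = q ∧ f i j ≠ f i' j}

lemma count_badF (n P κ B A : ℕ) (hn : 1 ≤ n) (ε : ℝ) (hε : 0 < ε) :
    ∃ (R : ℕ) (δ : ℝ), 0 < δ ∧ ∃ C : ℝ, ∀ X : ℕ, 1 ≤ X →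
      (({q ∈ BadF n P κ B A R δ | 1 ≤ q ∧ q ≤ X}.ncard : ℕ) : ℝ) ≤ C * (X : ℝ) ^ ε := by
  classical
  obtain ⟨R, δ, hδ, H⟩ := (Pool.Agent.Results.MP_ef6a16_nt.FewPointsAllFields.result P κ
    (ε / (A + 1)) (by positivity)).2 n B hn
  refine ⟨R, δ, hδ, P, fun X hX => ?_⟩
  have hX1 : (1 : ℝ) ≤ (X : ℝ) := by exact_mod_cast hX
  obtain ⟨Y, hY⟩ : ∃ Y : ℕ, Y = X ^ A := ⟨_, rfl⟩
  have hY1 : 1 ≤ Y := by rw [hY]; exact Nat.one_le_pow _ _ hX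
  have hYR : (Y : ℝ) = (X : ℝ) ^ A := by rw [hY]; push_cast; rfl
  have hY1' : (1 : ℝ) ≤ (Y : ℝ) := by exact_mod_cast hY1
  obtain ⟨hfin, hcard⟩ := H Y hY1 (fun _ => 1) 1
    (fun i => ⟨one_ne_zero, by
      rw [abs_one, Int.cast_one]; exact Real.one_le_exp (by positivity)⟩)
    (by rw [abs_one, Int.cast_one]; exact Real.one_le_exp (by positivity))
  -- the primes attached to a point
  obtain ⟨Lb, hLb⟩ : ∃ Lb : Submodule ℂ (Fin n → ℂ) → Set ℕ, Lb = fun W => {q : ℕ |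
    ∃ (K : Type) (_ : Field K) (_ : NumberField K) (p : Fin P → ℕ)
    (y : Fin P → K) (f : Fin n → Fin P → ℤ) (j : Fin P) (i i' : Fin n) (σ : K →+* ℂ),
    FInst n P κ B R δ Y K p y f ∧ p j = q ∧ f i j ≠ f i' j ∧
    W = Submodule.span ℂ {fun i => σ (∏ j, y j ^ f i j)}} := ⟨_, rfl⟩
  have hcl : ∀ W, (Lb W).Finite ∧ (Lb W).ncard ≤ P := by
    intro W
    by_cases hne : ∃ q₀ : ℕ, q₀ ∈ Lb W
    · obtain ⟨q₀, hq₀⟩ := hne
      rw [hLb] at hq₀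
      obtain ⟨K₂, _, _, p₂, y₂, f₂, j₂, i₂, i₂', σ₂, h₂, -, -, hW₂⟩ := hq₀
      have hsub : Lb W ⊆ Set.range p₂ := by
        intro q hq
        rw [hLb] at hq
        obtain ⟨K₁, _, _, p₁, y₁, f₁, j, i, i', σ₁, h₁, hpj, hne, hW₁⟩ := hq
        by_contra hq
        have hj : ∀ k, p₂ k ≠ p₁ j := fun k hk => hq ⟨k, hk.trans hpj⟩
        exact hne (fpair h₁ h₂ σ₁ σ₂ (hW₁.symm.trans hW₂) j hj i i')
      have hfin := (Set.finite_range p₂).subset hsub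
      refine ⟨hfin, (Set.ncard_le_ncard hsub (Set.finite_range p₂)).trans ?_⟩
      rw [← Set.image_univ]
      refine (Set.ncard_image_le Set.finite_univ).trans ?_
      rw [Set.ncard_univ, Nat.card_eq_fintype_card, Fintype.card_fin]
    · have h0 : Lb W = ∅ := by
        rw [Set.eq_empty_iff_forall_notMem]
        exact fun q hq => hne ⟨q, hq⟩
      rw [h0]
      simp
  have hsub : {q ∈ BadF n P κ B A R δ | 1 ≤ q ∧ q ≤ X} ⊆ ⋃ W ∈ hfin.toFinset, Lb W := by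
    rintro q ⟨⟨hq, K, _, _, p, y, f, j, i, i', h, hpj, hff⟩, hq1, hqX⟩
    have hq1' : (1 : ℝ) ≤ (q : ℝ) := by exact_mod_cast hq1
    have hqA : (1 : ℝ) ≤ (q : ℝ) ^ A := one_le_pow₀ hq1'
    have hqY : (q : ℝ) ^ A ≤ (Y : ℝ) := by
      rw [hYR]
      exact pow_le_pow_left₀ (by positivity) (by exact_mod_cast hqX) A
    have h' := h.mono hδ.le hqA hqY
    let σ : K →ₐ[ℚ] ℂ := IsAlgClosed.lift
    simp only [Set.mem_iUnion]
    refine ⟨Submodule.span ℂ {fun i => (σ : K →+* ℂ) (∏ j, y j ^ f i j)}, ?_, ?_⟩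
    · rw [Set.Finite.mem_toFinset]
      exact ⟨_, h'.sol (σ : K →+* ℂ), rfl⟩
    · rw [hLb]
      exact ⟨K, inferInstance, inferInstance, p, y, f, j, i, i', (σ : K →+* ℂ), h', hpj, hff, rfl⟩
  have h1 : {q ∈ BadF n P κ B A R δ | 1 ≤ q ∧ q ≤ X}.ncard ≤ hfin.toFinset.card * P := by
    refine (Set.ncard_le_ncard hsub ?_).trans ((Finset.set_ncard_biUnion_le _ _).trans ?_)
    · exact Set.Finite.biUnion (Finset.finite_toSet _) (fun W _ => (hcl W).1)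
    · exact (Finset.sum_le_sum fun W _ => (hcl W).2).trans (by
          rw [Finset.sum_const, smul_eq_mul])
  rw [← Set.ncard_eq_toFinset_card _ hfin] at h1
  have h2 : (({q ∈ BadF n P κ B A R δ | 1 ≤ q ∧ q ≤ X}.ncard : ℕ) : ℝ) ≤
      (({W : Submodule ℂ (Fin n → ℂ) | ∃ x, Sol P κ B R δ Y (fun _ => (1 : ℤ)) 1 x ∧
        W = Submodule.span ℂ {x}}.ncard : ℕ) : ℝ) * P := by exact_mod_cast h1
  refine h2.trans ?_
  have h4 : (Y : ℝ) ^ (ε / ((A : ℝ) + 1)) ≤ (X : ℝ) ^ ε := by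
    rw [hYR, ← Real.rpow_natCast, ← Real.rpow_mul (by positivity)]
    refine Real.rpow_le_rpow_of_exponent_le hX1 ?_
    have h5 : (0 : ℝ) < (A : ℝ) + 1 := by positivity
    rw [mul_div_assoc', div_le_iff₀ h5]
    nlinarith
  have h5 := mul_le_mul_of_nonneg_right (hcard.trans h4) (Nat.cast_nonneg (α := ℝ) P)
  linarith

end Pool.Agent.Seat74.TN
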