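import Mathlib
import Pool.Agent.Seat74.TN.Fer

/-!
One thin set of primes for all generalized Fermat equations over all number fields of bounded degree.
-/

set_option autoImplicit false

namespace Pool.Agent.Seat74.TN

open NumberField Height Module

theorem thinF (ε : ℝ) (hε : 0 < ε) : ∃ E : Set ℕ, (∀ q ∈ E, q.Prime) ∧
    (∀ X : ℝ, 1 ≤ X → {q ∈ E | (q : ℝ) ≤ X}.Finite ∧
      (({q ∈ E | (q : ℝ) ≤ X}.ncard : ℕ) : ℝ) ≤ X ^ ε) ∧
    ∀ n P κ B A : ℕ, ∃ (R : ℕ) (δ : ℝ), 0 < δ ∧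
      ∀ (Y : ℝ) (K : Type) [Field K] [NumberField K] (p : Fin P → ℕ) (y : Fin P → K)
        (f : Fin n → Fin P → ℤ), 1 ≤ Y → FInst n P κ B R δ Y K p y f →
        ∀ j, p j ∉ E → Y ≤ (p j : ℝ) ^ A → ∀ i i', f i j = f i' j := by
  classical
  have hcb := fun n P κ B A : ℕ => count_badF (n + 1) P κ B A (Nat.le_add_left _ _) (ε / 2)
    (by positivity)
  choose R δ hδ hC using hcb
  obtain ⟨T, hT⟩ := thin_union ε hε
    (fun j => BadF (j.unpair.1 + 1) j.unpair.2.unpair.1 j.unpair.2.unpair.2.unpair.1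
      j.unpair.2.unpair.2.unpair.2.unpair.1 j.unpair.2.unpair.2.unpair.2.unpair.2
      (R j.unpair.1 j.unpair.2.unpair.1 j.unpair.2.unpair.2.unpair.1
        j.unpair.2.unpair.2.unpair.2.unpair.1 j.unpair.2.unpair.2.unpair.2.unpair.2)
      (δ j.unpair.1 j.unpair.2.unpair.1 j.unpair.2.unpair.2.unpair.1
        j.unpair.2.unpair.2.unpair.2.unpair.1 j.unpair.2.unpair.2.unpair.2.unpair.2))
      (fun j => hC _ _ _ _ _)
  obtain ⟨E, hE⟩ : ∃ E : Set ℕ, E = {x : ℕ | ∃ j : ℕ, x ∈ BadF (j.unpair.1 + 1)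
      j.unpair.2.unpair.1 j.unpair.2.unpair.2.unpair.1
      j.unpair.2.unpair.2.unpair.2.unpair.1 j.unpair.2.unpair.2.unpair.2.unpair.2
      (R j.unpair.1 j.unpair.2.unpair.1 j.unpair.2.unpair.2.unpair.1
        j.unpair.2.unpair.2.unpair.2.unpair.1 j.unpair.2.unpair.2.unpair.2.unpair.2)
      (δ j.unpair.1 j.unpair.2.unpair.1 j.unpair.2.unpair.2.unpair.1
        j.unpair.2.unpair.2.unpair.2.unpair.1 j.unpair.2.unpair.2.unpair.2.unpair.2)
      ∧ T j ≤ x} := ⟨_, rfl⟩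
  have hEp : ∀ q ∈ E, q.Prime := by
    rw [hE]
    rintro q ⟨j, hj, -⟩
    exact hj.1
  have hEc : ∀ X : ℝ, 1 ≤ X → {x ∈ E | (x : ℝ) ≤ X}.Finite ∧
      (({x ∈ E | (x : ℝ) ≤ X}.ncard : ℕ) : ℝ) ≤ X ^ ε := by
    intro X hX
    rw [hE]
    exact hT X hX
  refine ⟨E, hEp, hEc, fun n' P κ B A => ?_⟩
  rcases Nat.eq_zero_or_pos n' with rfl | hn'
  · exact ⟨0, 1, one_pos, fun Y K _ _ p y f _ _ j _ _ i => i.elim0⟩
  obtain ⟨n, rfl⟩ : ∃ n, n' = n + 1 := ⟨n' - 1, by omega⟩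
  obtain ⟨j₀, hj₀⟩ : ∃ j, j = Nat.pair n (Nat.pair P (Nat.pair κ (Nat.pair B A))) := ⟨_, rfl⟩
  have hu1 : (Nat.unpair j₀).1 = n := by rw [hj₀, Nat.unpair_pair]
  have hu2 : (Nat.unpair (Nat.unpair j₀).2).1 = P := by
    rw [hj₀, Nat.unpair_pair]; simp
  have hu3 : (Nat.unpair (Nat.unpair (Nat.unpair j₀).2).2).1 = κ := by
    rw [hj₀, Nat.unpair_pair]; simp
  have hu4 : (Nat.unpair (Nat.unpair (Nat.unpair (Nat.unpair j₀).2).2).2).1 = B := by
    rw [hj₀, Nat.unpair_pair]; simp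
  have hu5 : (Nat.unpair (Nat.unpair (Nat.unpair (Nat.unpair j₀).2).2).2).2 = A := by
    rw [hj₀, Nat.unpair_pair]; simp
  have hBadE : ∀ x : ℕ, x ∈ BadF (n + 1) P κ B A (R n P κ B A) (δ n P κ B A) →
      T j₀ ≤ x → x ∈ E := by
    intro x hx hTx
    rw [hE]
    refine ⟨j₀, ?_, hTx⟩
    rw [hu1, hu2, hu3, hu4, hu5]
    exact hx
  obtain ⟨R₁, hR₁⟩ := exists_nat_ge (((T j₀ : ℝ) ^ A) ^ δ n P κ B A)
  refine ⟨max (R n P κ B A) (R₁ + 1), δ n P κ B A, hδ n P κ B A, ?_⟩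
  intro Y K _ _ p y f hY h j hjE hjA i i'
  by_contra hne
  have h' : FInst (n + 1) P κ B (R n P κ B A) (δ n P κ B A) ((p j : ℝ) ^ A) K p y f := by
    have h4 := h.mono (hδ n P κ B A).le hY hjA
    obtain ⟨h1, h2, h3, h4, h5, h6, s, s₀, z, e, d, r, h7, h8, h9, h10⟩ := h4
    exact ⟨h1, h2, h3, h4, h5, h6, s, s₀, z, e, d, r, (le_max_left _ _).trans h7, h8,
      (le_max_left _ _).trans h9, h10⟩
  by_cases hTx : T j₀ ≤ p j
  · exact hjE (hBadE _ ⟨h.2.1 j, K, inferInstance, inferInstance, p, y, f, j, i, i', h', rfl, hne⟩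
      hTx)
  · obtain ⟨h1, h2, h3, h4, h5, h6, s, s₀, z, e, d, r, h7, h8, h9, h10⟩ := h
    have h11 : Y ^ δ n P κ B A ≤ ((T j₀ : ℝ) ^ A) ^ δ n P κ B A := by
      refine Real.rpow_le_rpow (by linarith) (hjA.trans ?_) (hδ n P κ B A).le
      exact pow_le_pow_left₀ (by positivity) (by exact_mod_cast (not_le.1 hTx).le) A
    have h12 : (d : ℝ) ≤ R₁ := (h8.trans h11).trans hR₁
    have h13 : d ≤ R₁ := by exact_mod_cast h12
    have h14 : R₁ + 1 ≤ d := (le_max_right _ _).trans h7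
    omega

/-- `± 2` is not a power with an exponent larger than the degree -/
lemma two_not_pow {K : Type} [Field K] [NumberField K] (w : K) (n : ℕ)
    (hn : finrank ℚ K < n) (h : w ^ n = 2 ∨ w ^ n = -2) : False := by
  have _ : Fact (Nat.Prime 2) := ⟨Nat.prime_two⟩
  have h1 : padicValRat 2 (Algebra.norm ℚ (w ^ n)) = finrank ℚ K := by
    have h2 : Algebra.norm ℚ (2 : K) = 2 ^ finrank ℚ K := by
      have := Algebra.norm_algebraMap (S := K) (2 : ℚ)
      simpa using this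
    have h3 : padicValRat 2 (Algebra.norm ℚ (2 : K)) = finrank ℚ K := by
      rw [h2, padicValRat.pow]
      have : padicValRat 2 (2 : ℚ) = 1 := by
        have := padicValRat.self (p := 2) (by norm_num)
        exact_mod_cast this
      rw [this, mul_one]
    rcases h with h | h
    · rw [h, h3]
    · rw [h, show (-2 : K) = (-1) * 2 by ring, map_mul]
      have h4 : |Algebra.norm ℚ (-1 : K)| = 1 := by
        have h5 : Algebra.norm ℚ (-1 : K) = (-1) ^ finrank ℚ K := by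
          have := Algebra.norm_algebraMap (S := K) (-1 : ℚ)
          simpa using this
        rw [h5, abs_pow, abs_neg, abs_one, one_pow]
      rw [← padic_abs, abs_mul, h4, one_mul, padic_abs, h3]
  rw [map_pow, padicValRat.pow] at h1
  have h2 : (n : ℤ) ∣ (finrank ℚ K : ℤ) := ⟨_, h1.symm⟩
  have h3 : n ∣ finrank ℚ K := by exact_mod_cast h2
  have h4 := Nat.le_of_dvd finrank_pos h3
  omega

/-- the numbers `x` and `y` of the Fermat equation -/
def Structured (P : ℕ) (δ Y : ℝ) (K : Type) [Field K] [NumberField K] (p : Fin P → ℕ) (x y : K) :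
    Prop :=
  (∀ j, (p j).Prime) ∧ Function.Injective p ∧ ∃ (w : Fin P → K) (f g : Fin P → ℤ),
    (∀ j, ∃ a : ℕ, 0 < a ∧ |Algebra.norm ℚ (w j)| = (p j : ℚ) ^ a) ∧
    (∀ j, mulHeight₁ (w j) ≤ Y ^ finrank ℚ K) ∧
    (∀ j, |(f j : ℝ)| ≤ Y ^ δ) ∧ (∀ j, |(g j : ℝ)| ≤ Y ^ δ) ∧
    x = ∏ j, w j ^ f j ∧ y = ∏ j, w j ^ g j

/-- the Fermat equation, for one choice of the set and the parameters -/
lemma fermat_none {P κ A R : ℕ} {δ : ℝ} {E : Set ℕ}
    (H : ∀ (Y : ℝ) (K : Type) [Field K] [NumberField K] (p : Fin P → ℕ) (y : Fin P → K)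
        (f : Fin 2 → Fin P → ℤ), 1 ≤ Y → FInst 2 P κ 0 R δ Y K p y f →
        ∀ j, p j ∉ E → Y ≤ (p j : ℝ) ^ A → ∀ i i', f i j = f i' j)
    {Y : ℝ} (hY : 1 ≤ Y) {K : Type} [Field K] [NumberField K] (hK : finrank ℚ K ≤ κ)
    {p : Fin P → ℕ} (hp : ∀ j, p j ∉ E ∧ Y ≤ (p j : ℝ) ^ A) {x y z : K} {n : ℕ}
    (hs : Structured P δ Y K p x y) (hn : max R (κ + 1) ≤ n) (hnY : (n : ℝ) ≤ Y ^ δ) (hz : z ≠ 0)
    {s t : K} (hs1 : s = 1 ∨ s = -1) (ht1 : t = 1 ∨ t = -1)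
    (hs2 : x ^ n + t * y ^ n = s * z ^ n) : False := by
  obtain ⟨hpp, hpi, w, f, g, hw1, hw2, hf, hg, rfl, rfl⟩ := hs
  have hd : (0 : ℝ) ≤ Y ^ δ := by positivity
  have hw0 : ∀ j, w j ≠ 0 := by
    intro j h0
    obtain ⟨a, ha, hN⟩ := hw1 j
    rw [h0, Algebra.norm_zero, abs_zero] at hN
    have := (hpp j).pos
    have h7 : (0 : ℚ) < (p j : ℚ) ^ a := by positivity
    exact absurd hN h7.ne
  have hx0 : ∏ j, w j ^ f j ≠ 0 := Finset.prod_ne_zero_iff.2 fun j _ => zpow_ne_zero _ (hw0 j)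
  have hy0 : ∏ j, w j ^ g j ≠ 0 := Finset.prod_ne_zero_iff.2 fun j _ => zpow_ne_zero _ (hw0 j)
  have hne : ∀ u : K, u = 1 ∨ u = -1 → u ≠ 0 := by
    rintro u (rfl | rfl)
    · exact one_ne_zero
    · exact neg_ne_zero.2 one_ne_zero
  have hH : ∀ u : K, u = 1 ∨ u = -1 → mulHeight₁ u ≤ 1 := by
    rintro u (rfl | rfl)
    · rw [mulHeight₁_one]
    · rw [mulHeight₁_neg, mulHeight₁_one]
  have hs0 : s ≠ 0 := hne s hs1
  have hInst : FInst 2 P κ 0 R δ Y K p w ![f, g] := by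
    refine ⟨hK, hpp, hpi, hw1, hw2, ?_, ![1, t], s, z, fun _ => 0, n, n,
      (le_max_left _ _).trans hn, hnY, (le_max_left _ _).trans hn, hnY, ?_, ?_, hs0, ?_, ?_, ?_⟩
    · rw [Fin.forall_fin_two]
      exact ⟨hf, hg⟩
    · intro j
      rw [Int.cast_zero, abs_zero]
      exact hd
    · rw [Fin.forall_fin_two, pow_zero, one_pow]
      exact ⟨⟨one_ne_zero, hH 1 (Or.inl rfl)⟩, ⟨hne t ht1, hH t ht1⟩⟩
    · rw [pow_zero, one_pow]
      exact hH s hs1
    · intro J hJ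
      have h14 : ∀ i : Fin 2, (![1, t] : Fin 2 → K) i *
          (∏ j, w j ^ (![f, g] : Fin 2 → Fin P → ℤ) i j) ^ n =
          ![(∏ j, w j ^ f j) ^ n, t * (∏ j, w j ^ g j) ^ n] i := by
        rw [Fin.forall_fin_two]
        constructor <;> simp
      rw [Finset.sum_congr rfl fun i _ => h14 i]
      have hJ' : J = {0} ∨ J = {1} ∨ J = {0, 1} := by
        revert J
        decide
      rcases hJ' with rfl | rfl | rfl
      · rw [Finset.sum_singleton]
        exact pow_ne_zero _ hx0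
      · rw [Finset.sum_singleton]
        exact mul_ne_zero (hne t ht1) (pow_ne_zero _ hy0)
      · rw [Finset.sum_pair (by decide)]
        show (∏ j, w j ^ f j) ^ n + t * (∏ j, w j ^ g j) ^ n ≠ 0
        rw [hs2]
        exact mul_ne_zero hs0 (pow_ne_zero _ hz)
    · rw [Fin.sum_univ_two]
      simp only [Matrix.cons_val_zero, Matrix.cons_val_one, zpow_zero, Finset.prod_const_one,
        mul_one, one_mul]
      exact hs2
  have hfg : ∀ j, f j = g j := fun j =>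
    H Y K p w ![f, g] hY hInst j (hp j).1 (hp j).2 0 1
  have hxy : ∏ j, w j ^ g j = ∏ j, w j ^ f j :=
    Finset.prod_congr rfl fun j _ => by rw [hfg j]
  rw [hxy] at hs2
  rcases ht1 with rfl | rfl
  · refine two_not_pow (z / ∏ j, w j ^ f j) n ?_ ?_
    · have := (le_max_right R (κ + 1)).trans hn
      omega
    · have hx1 : (∏ j, w j ^ f j) ^ n ≠ 0 := pow_ne_zero _ hx0
      rcases hs1 with rfl | rfl
      · left
        rw [div_pow, div_eq_iff hx1]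
        linear_combination -hs2
      · right
        rw [div_pow, div_eq_iff hx1]
        linear_combination hs2
  · have h0 : s * z ^ n = 0 := by linear_combination -hs2
    exact mul_ne_zero hs0 (pow_ne_zero _ hz) h0

end Pool.Agent.Seat74.TN
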